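import Pool.Agent.H68.Cov.Tree

/-! Some tree separates every set of distinct codewords. -/

namespace Pool.Agent.H68.Cov

open Finset

set_option linter.unusedSectionVars false

variable {V : Type*} [DecidableEq V] {N : Type*} [Fintype N] [DecidableEq N]

/-- The strategy of the tree with block `J`: probe the set `Q y` of one chosen separating
coordinate `y`, and, if many separating coordinates are known in `J`, all `y` with `Q y` missing
them. -/
noncomputable def strat (Q : N → Finset N) (J : Finset N) (s : ℕ) (Z : Finset N) : Finset N :=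
  (if h : Z.Nonempty then Q h.choose else ∅) ∪
    (if s ≤ (Z ∩ J).card then univ.filter (fun y => Disjoint (Q y) (Z ∩ J)) else ∅)

/-- The pairs not yet separated. -/
def miss (c : V → N → ℕ) (e : Finset V) (S : Finset N) : Finset (V × V) :=
  (e ×ˢ e).filter (fun p => p.1 ≠ p.2 ∧ Disjoint (diff c p.1 p.2) S)

theorem miss_anti (c : V → N → ℕ) (e : Finset V) {S S' : Finset N} (h : S ⊆ S') :
    miss c e S' ⊆ miss c e S := by
  intro p hp
  unfold miss at hp ⊢
  rw [mem_filter] at hp ⊢
  exact ⟨hp.1, hp.2.1, hp.2.2.mono_right h⟩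

theorem miss_nonempty {c : V → N → ℕ} {e : Finset V} {S : Finset N} (h : ¬ Sep c S e) :
    (miss c e S).Nonempty := by
  unfold Sep at h
  push Not at h
  obtain ⟨w, hw, w', hw', hne, hall⟩ := h
  refine ⟨(w, w'), ?_⟩
  unfold miss
  rw [mem_filter]
  refine ⟨by simp [hw, hw'], hne, ?_⟩
  rw [Finset.disjoint_left]
  intro j hj hjS
  rw [mem_diff] at hj
  exact hj (hall j hjS)

theorem exists_sep {ι : Type*} [Fintype ι] [Nonempty ι] (c : V → N → ℕ) (Q : N → Finset N)
    (J : ι → Finset N) (s T : ℕ) (e : Finset V) (hs : 1 ≤ s)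
    (hcode : ∀ v ∈ e, ∀ w ∈ e, v ≠ w → ∃ i, s ≤ (diff c v w ∩ J i).card)
    (hT : Fintype.card ι * (e.card * e.card) + 2 ≤ T) :
    ∃ i, Sep c (read c (strat Q (J i) s) (J i) e T) e := by
  classical
  by_contra hcon
  push Not at hcon
  set R : ι → ℕ → Finset N := fun i t => read c (strat Q (J i) s) (J i) e t with hR
  have hRmono : ∀ i, Monotone (R i) := fun i => read_mono _ _ _ _
  set M : ι → ℕ → Finset (V × V) := fun i t => miss c e (R i t) with hM
  have hMle : ∀ i t t', t ≤ t' → M i t' ⊆ M i t := by
    intro i t t' htt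
    exact miss_anti c e (hRmono i htt)
  have hMne : ∀ i t, t ≤ T → (M i t).Nonempty := by
    intro i t ht
    exact (miss_nonempty (hcon i)).mono (hMle i t T ht)
  set tot : ℕ → ℕ := fun t => ∑ i, (M i t).card with htot
  have hanti : ∀ t, tot (t + 1) ≤ tot t := by
    intro t
    exact Finset.sum_le_sum (fun i _ => Finset.card_le_card (hMle i t (t + 1) (Nat.le_succ t)))
  have hex : ∃ t, 1 ≤ t ∧ t + 1 ≤ T ∧ tot (t + 1) = tot t := by
    by_contra hno
    push Not at hno
    have hdec : ∀ t, t + 1 ≤ T → tot (t + 1) + t ≤ tot 1 := by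
      intro t
      induction t with
      | zero => intro _; simp
      | succ t ih =>
        intro ht
        have h1 := ih (by omega)
        have h2 := hanti (t + 1)
        have h3 := hno (t + 1) (by omega) ht
        omega
    have h1 := hdec (T - 1) (by omega)
    have h2 : tot 1 ≤ Fintype.card ι * (e.card * e.card) := by
      have : ∀ i ∈ (univ : Finset ι), (M i 1).card ≤ e.card * e.card := by
        intro i _
        refine (Finset.card_filter_le _ _).trans ?_
        rw [Finset.card_product]
      calc tot 1 ≤ ∑ _i : ι, e.card * e.card := Finset.sum_le_sum this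
        _ = _ := by simp
    omega
  obtain ⟨t, ht1, htT, heq⟩ := hex
  have hMeq : ∀ i, M i (t + 1) = M i t := by
    intro i
    have h1 := (Finset.sum_eq_sum_iff_of_le (s := (univ : Finset ι))
      (f := fun i => (M i (t + 1)).card) (g := fun i => (M i t).card)
      (fun i _ => Finset.card_le_card (hMle i t (t + 1) (Nat.le_succ t)))).mp heq i (mem_univ i)
    exact Finset.eq_of_subset_of_card_le (hMle i t (t + 1) (Nat.le_succ t)) h1.ge
  obtain ⟨i, _, hmin⟩ := Finset.exists_min_image (univ : Finset ι) (fun i => (M i t).card)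
    Finset.univ_nonempty
  obtain ⟨⟨v, w⟩, hvw⟩ := hMne i t (by omega)
  have hvw' := hvw
  simp only [hM, miss, mem_filter, mem_product] at hvw'
  obtain ⟨⟨hv, hw⟩, hne, hdis⟩ := hvw'
  obtain ⟨i', hi'⟩ := hcode v hv w hw hne
  -- everything missed by `i'` is missed by `i`
  have hsub : M i' t ⊆ M i t := by
    rintro ⟨x, y⟩ hxy
    by_contra hnot
    have hxy' := hxy
    simp only [hM, miss, mem_filter, mem_product] at hxy' hnot
    obtain ⟨⟨hx, hy⟩, hxyne, hxydis⟩ := hxy'
    have hnd : ¬ Disjoint (diff c x y) (R i t) := fun h => hnot ⟨⟨hx, hy⟩, hxyne, h⟩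
    have hZ : (diff c x y ∩ R i t).Nonempty := by
      rw [Finset.nonempty_iff_ne_empty]
      intro h0
      exact hnd (Finset.disjoint_iff_inter_eq_empty.mpr h0)
    set z := hZ.choose with hz
    have hzmem : z ∈ diff c x y ∩ R i t := hZ.choose_spec
    have hQ : Q z ⊆ R i (t + 1) := by
      refine Finset.Subset.trans ?_ (step_subset_read (t := t) hx hy)
      change Q z ⊆ strat Q (J i) s (diff c x y ∩ R i t)
      unfold strat
      rw [dif_pos hZ]
      exact Finset.subset_union_left
    have hvw1 : (v, w) ∈ M i (t + 1) := by rw [hMeq i]; exact hvw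
    simp only [hM, miss, mem_filter, mem_product] at hvw1
    have hdQ : Disjoint (Q z) (diff c v w ∩ J i') := by
      have := hvw1.2.2
      exact (this.symm.mono_left hQ).mono_right Finset.inter_subset_left
    have hR0 : R i' 0 = J i' := rfl
    have hstep : z ∈ R i' 1 := by
      have h1 : strat Q (J i') s (diff c v w ∩ R i' 0) ⊆ R i' 1 := step_subset_read (t := 0) hv hw
      apply h1
      rw [hR0]
      unfold strat
      apply Finset.mem_union_right
      have h2 : diff c v w ∩ J i' ∩ J i' = diff c v w ∩ J i' := by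
        rw [Finset.inter_assoc, Finset.inter_self]
      rw [h2, if_pos hi', mem_filter]
      exact ⟨mem_univ _, hdQ⟩
    have h3 : z ∈ R i' t := hRmono i' ht1 hstep
    rw [Finset.disjoint_left] at hxydis
    exact hxydis (mem_inter.mp hzmem).1 h3
  have hnotin : (v, w) ∉ M i' t := by
    intro h
    simp only [hM, miss, mem_filter, mem_product] at h
    have h1 : Disjoint (diff c v w) (J i') := h.2.2.mono_right (hRmono i' (Nat.zero_le t))
    rw [Finset.disjoint_iff_inter_eq_empty] at h1
    rw [h1] at hi'
    simp at hi'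
    omega
  have hlt : (M i' t).card < (M i t).card :=
    Finset.card_lt_card (Finset.ssubset_iff_subset_ne.mpr ⟨hsub, fun h => hnotin (h ▸ hvw)⟩)
  exact absurd (hmin i' (mem_univ _)) (not_le.mpr hlt)

/-- Size of the reading sets. -/
theorem card_read_le (c : V → N → ℕ) (step : Finset N → Finset N) (S0 : Finset N) (e : Finset V)
    {B : ℕ} (hB : ∀ Z, (step Z).card ≤ B) (t : ℕ) :
    (read c step S0 e t).card ≤ S0.card + t * ((e.card * e.card) * B) := by
  induction t with
  | zero => simp [read]
  | succ t ih =>
    rw [read]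
    refine (Finset.card_union_le _ _).trans ?_
    have h1 : ((e ×ˢ e).biUnion (fun p => step ((diff c p.1 p.2) ∩ read c step S0 e t))).card ≤
        (e ×ˢ e).card * B := Finset.card_biUnion_le_card_mul _ _ _ (fun p _ => hB _)
    rw [Finset.card_product] at h1
    calc _ ≤ (S0.card + t * ((e.card * e.card) * B)) + e.card * e.card * B :=
          Nat.add_le_add ih h1
      _ = _ := by ring

theorem card_strat_le {Q : N → Finset N} {J : Finset N} {s q r : ℕ} (hQ : ∀ y, (Q y).card ≤ q)
    (hr : ∀ Y : Finset N, Y ⊆ J → s ≤ Y.card →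
      (univ.filter (fun y => Disjoint (Q y) Y)).card ≤ r) (Z : Finset N) :
    (strat Q J s Z).card ≤ q + r := by
  unfold strat
  refine (Finset.card_union_le _ _).trans (Nat.add_le_add ?_ ?_)
  · split_ifs with h
    · exact hQ _
    · simp
  · split_ifs with h
    · exact hr _ Finset.inter_subset_right h
    · simp

end Pool.Agent.H68.Cov
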