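import Pool.Agent.H68.Cov.Upper

/-! The asymptotic upper bound. -/

namespace Pool.Agent.H68.Cov

open Finset

theorem exists_params (A l h : ℕ) (hl : 1 ≤ l) {ε : ℝ} (hε : 0 < ε) :
    ∃ p g : ℕ, p.Prime ∧ 1 ≤ g ∧ g ≤ p ∧
      (h : ℝ) * ((p : ℝ) ^ 2 + A * (p + (p : ℝ) ^ 2 / g)) ≤
        ((h : ℝ) / l + ε) * (l * ((p : ℝ) ^ 2 - g * p)) := by
  have hl' : (0 : ℝ) < l := by exact_mod_cast hl
  obtain ⟨g, hg⟩ := exists_nat_ge (max 1 ((2 * A * h + h + ε * l) / (ε * l)))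
  have hg1 : (1 : ℝ) ≤ g := (le_max_left _ _).trans hg
  have hg2 : 2 * A * h + h + ε * l ≤ ε * l * g := by
    have := (le_max_right _ _).trans hg
    rw [div_le_iff₀ (by positivity)] at this
    linarith
  have hg1' : 1 ≤ g := by exact_mod_cast hg1
  obtain ⟨p, hpg, hp⟩ := Nat.exists_infinite_primes (g ^ 2)
  have hgp : g ≤ p := by nlinarith
  refine ⟨p, g, hp, hg1', hgp, ?_⟩
  have hpg' : (g : ℝ) ^ 2 ≤ p := by exact_mod_cast hpg
  have hp0 : (0 : ℝ) < p := by exact_mod_cast hp.pos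
  have hgp' : (g : ℝ) ≤ p := by exact_mod_cast hgp
  have hg0 : (0 : ℝ) < g := by linarith
  have hA : (0 : ℝ) ≤ A := Nat.cast_nonneg _
  have hh : (0 : ℝ) ≤ h := Nat.cast_nonneg _
  have e1 : ((h : ℝ) / l + ε) * (l * ((p : ℝ) ^ 2 - g * p)) =
      (h + ε * l) * ((p : ℝ) ^ 2 - g * p) := by
    field_simp
  rw [e1]
  have key : (h : ℝ) * ((p : ℝ) ^ 2 * g + A * (p * g + (p : ℝ) ^ 2)) ≤
      (h + ε * l) * ((p : ℝ) ^ 2 * g - g ^ 2 * p) := by
    have h1 : (p : ℝ) * g ≤ (p : ℝ) ^ 2 := by nlinarith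
    have h2 : (g : ℝ) ^ 2 * p ≤ (p : ℝ) ^ 2 := by nlinarith
    have h3 : (h : ℝ) * ((p : ℝ) ^ 2 * g + A * (p * g + (p : ℝ) ^ 2)) ≤
        h * ((p : ℝ) ^ 2 * g + A * ((p : ℝ) ^ 2 + (p : ℝ) ^ 2)) := by
      apply mul_le_mul_of_nonneg_left _ hh
      have := mul_le_mul_of_nonneg_left h1 hA
      linarith
    have h4 : (h + ε * l) * ((p : ℝ) ^ 2 * g - (p : ℝ) ^ 2) ≤
        (h + ε * l) * ((p : ℝ) ^ 2 * g - g ^ 2 * p) := by
      apply mul_le_mul_of_nonneg_left _ (by positivity)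
      linarith
    refine h3.trans (le_trans ?_ h4)
    have h5 : 0 ≤ (p : ℝ) ^ 2 * (ε * l * g - (2 * A * h + h + ε * l)) :=
      mul_nonneg (by positivity) (by linarith)
    nlinarith [h5]
  have e2 : (h : ℝ) * ((p : ℝ) ^ 2 + A * (p + (p : ℝ) ^ 2 / g)) =
      ((h : ℝ) * ((p : ℝ) ^ 2 * g + A * (p * g + (p : ℝ) ^ 2))) / g := by
    field_simp
  have e3 : (h + ε * l) * ((p : ℝ) ^ 2 - g * p) =
      ((h + ε * l) * ((p : ℝ) ^ 2 * g - g ^ 2 * p)) / g := by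
    field_simp
  rw [e2, e3]
  exact div_le_div_of_nonneg_right key hg0.le

theorem upper (k l : ℕ) (hl : 1 ≤ l) {ε : ℝ} (hε : 0 < ε) :
    ∃ C : ℝ, ∀ n : ℕ, 1 ≤ n → ∃ m : ℕ,
      (m : ℝ) ≤ C * (n : ℝ) ^ (((k / 2 : ℕ) : ℝ) / l + ε) ∧
      ∃ H : Fin m → Fin k → Finset (Fin n), IsCovering k l n m H := by
  obtain ⟨p, g, hp, hg1, hgp, hpar⟩ :=
    exists_params ((l * (k * k) + 2) * (k * k) * l) l (k / 2) hl hε
  have : Fact p.Prime := ⟨hp⟩
  set h := k / 2 with hh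
  set s := g * p with hs
  have hs1 : 1 ≤ s := Nat.mul_pos hg1 hp.pos
  have hsp : s ≤ p ^ 2 := by rw [hs, sq]; exact Nat.mul_le_mul_right _ hgp
  set D := l * (p ^ 2 - (s - 1)) with hD
  have hD1 : 1 ≤ D := Nat.mul_pos hl (by omega)
  set D0 := p ^ 2 + (l * (k * k) + 2) * (k * k * (l * p + l * (p ^ 3 / s))) with hD0
  set C1 : ℕ := (l * p ^ 2) ^ D0 with hC1
  set C2 : ℕ := ((2 * h + 2) ^ (l * p ^ 2)) ^ k with hC2
  have hl' : (0 : ℝ) < l := by exact_mod_cast hl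
  -- exponent comparison
  have hexp : (h : ℝ) * D0 ≤ ((h : ℝ) / l + ε) * D := by
    have h1 : (D0 : ℝ) ≤ (p : ℝ) ^ 2 + (((l * (k * k) + 2) * (k * k) * l : ℕ) : ℝ) *
        (p + (p : ℝ) ^ 2 / g) := by
      have h2 : ((p ^ 3 / s : ℕ) : ℝ) ≤ (p : ℝ) ^ 2 / g := by
        refine Nat.cast_div_le.trans ?_
        rw [hs]
        push_cast
        have hp0 : (0 : ℝ) < p := by exact_mod_cast hp.pos
        have hg0 : (0 : ℝ) < g := by exact_mod_cast hg1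
        apply le_of_eq
        field_simp
      rw [hD0]
      push_cast
      have h3 : (0 : ℝ) ≤ ((l : ℝ) * (k * k) + 2) * (k * k) * l := by positivity
      have h4 := mul_le_mul_of_nonneg_left h2 h3
      linarith
    have h2 : (l : ℝ) * ((p : ℝ) ^ 2 - g * p) ≤ D := by
      rw [hD]
      push_cast [Nat.cast_sub (show s - 1 ≤ p ^ 2 by omega), Nat.cast_sub hs1]
      rw [hs]
      push_cast
      nlinarith
    calc (h : ℝ) * D0 ≤ h * ((p : ℝ) ^ 2 + (((l * (k * k) + 2) * (k * k) * l : ℕ) : ℝ) *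
        (p + (p : ℝ) ^ 2 / g)) := mul_le_mul_of_nonneg_left h1 (Nat.cast_nonneg _)
      _ ≤ ((h : ℝ) / l + ε) * (l * ((p : ℝ) ^ 2 - g * p)) := hpar
      _ ≤ _ := mul_le_mul_of_nonneg_left h2 (by positivity)
  refine ⟨l * (C1 * (3 * (l * p ^ 2 + 2) : ℕ) ^ (h * D0) * C2 : ℕ), ?_⟩
  intro n hn
  have hnR : (1 : ℝ) ≤ n := by exact_mod_cast hn
  set x : ℝ := (n : ℝ) ^ ((1 : ℝ) / D) with hx
  have hx1 : 1 ≤ x := Real.one_le_rpow hnR (by positivity)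
  set a : ℕ := max (l * p ^ 2) ⌈x⌉₊ with ha
  have ha0 : a ≠ 0 := by
    have : 0 < ⌈x⌉₊ := Nat.ceil_pos.mpr (by linarith)
    have := le_max_right (l * p ^ 2) ⌈x⌉₊
    omega
  obtain ⟨P, hP, haP, hPa⟩ := Nat.exists_prime_lt_and_le_two_mul a ha0
  have : Fact P.Prime := ⟨hP⟩
  have hxP : x ≤ P := by
    refine (Nat.le_ceil x).trans ?_
    have := le_max_right (l * p ^ 2) ⌈x⌉₊
    exact_mod_cast (this.trans haP.le)
  have hxD : x ^ D = n := by
    rw [hx, ← Real.rpow_natCast, ← Real.rpow_mul (by linarith)]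
    have : (1 : ℝ) / D * D = 1 := by
      have : (D : ℝ) ≠ 0 := by positivity
      field_simp
    rw [this, Real.rpow_one]
  have hnP : n ≤ P ^ D := by
    have h1 : (n : ℝ) ≤ (P : ℝ) ^ D := by
      rw [← hxD]
      exact pow_le_pow_left₀ (by linarith) hxP D
    exact_mod_cast h1
  have hNcard : Fintype.card (Fin l × (ZMod p × ZMod p)) = l * p ^ 2 := by
    simp [ZMod.card, sq]
  obtain ⟨c, hc1, hc2⟩ := exists_code (N := Fin l × (ZMod p × ZMod p)) P D n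
    (by rw [hNcard]; exact (le_max_left _ _).trans haP.le) hnP
  obtain ⟨m, hm, H, hH⟩ := exists_covering_of_code (k := k) (l := l) (n := n) (p := p) (s := s)
    (P := P) hl hs1 c hc1 (by
      intro v w hvw
      have h1 := hc2 v w hvw
      rw [hNcard, hD] at h1
      have h2 : l * p ^ 2 = l * (p ^ 2 - (s - 1)) + l * (s - 1) := by
        rw [← Nat.mul_add]
        congr 1
        omega
      omega)
  refine ⟨m, ?_, H, hH⟩
  have hm' : (m : ℝ) ≤ l * (C1 * (((P : ℝ) + 1) ^ (h * D0)) * C2) := by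
    have : m ≤ l * (C1 * ((P + 1) ^ (h * D0)) * C2) := by
      rw [pow_mul]
      exact hm
    exact_mod_cast this
  have hPle : (P : ℝ) + 1 ≤ (3 * (l * p ^ 2 + 2) : ℕ) * x := by
    have h1 : (P : ℝ) ≤ 2 * a := by exact_mod_cast hPa
    have hB0 : (0 : ℝ) ≤ ((l * p ^ 2 : ℕ) : ℝ) := Nat.cast_nonneg _
    have hx0 : 0 ≤ x - 1 := by linarith
    have hprod := mul_nonneg hB0 hx0
    have h2 : (a : ℝ) ≤ (((l * p ^ 2 : ℕ) : ℝ) + 2) * x := by
      rw [ha, Nat.cast_max]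
      apply max_le
      · linarith [hprod]
      · have h3 : (⌈x⌉₊ : ℝ) < x + 1 := Nat.ceil_lt_add_one (by linarith)
        linarith [hprod]
    have h3 : (1 : ℝ) ≤ a := by exact_mod_cast Nat.one_le_iff_ne_zero.mpr ha0
    have e1 : ((3 * (l * p ^ 2 + 2) : ℕ) : ℝ) = 3 * (((l * p ^ 2 : ℕ) : ℝ) + 2) := by
      push_cast; ring
    rw [e1]
    linarith
  have hpow : ((P : ℝ) + 1) ^ (h * D0) ≤
      ((3 * (l * p ^ 2 + 2) : ℕ) : ℝ) ^ (h * D0) * (n : ℝ) ^ ((h : ℝ) / l + ε) := by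
    calc ((P : ℝ) + 1) ^ (h * D0) ≤ (((3 * (l * p ^ 2 + 2) : ℕ) : ℝ) * x) ^ (h * D0) :=
          pow_le_pow_left₀ (by positivity) hPle _
      _ = ((3 * (l * p ^ 2 + 2) : ℕ) : ℝ) ^ (h * D0) * x ^ (h * D0) := mul_pow _ _ _
      _ ≤ _ := by
          apply mul_le_mul_of_nonneg_left _ (by positivity)
          rw [hx, ← Real.rpow_natCast, ← Real.rpow_mul (by linarith)]
          apply Real.rpow_le_rpow_of_exponent_le hnR
          have hD' : (0 : ℝ) < D := by exact_mod_cast hD1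
          rw [div_mul_eq_mul_div, div_le_iff₀ hD']
          push_cast
          linarith
  calc (m : ℝ) ≤ l * (C1 * (((P : ℝ) + 1) ^ (h * D0)) * C2) := hm'
    _ ≤ l * (C1 * (((3 * (l * p ^ 2 + 2) : ℕ) : ℝ) ^ (h * D0) * (n : ℝ) ^ ((h : ℝ) / l + ε)) * C2) := by
        gcongr
    _ = _ := by push_cast; ring

end Pool.Agent.H68.Cov
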