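import Pool.Agent.H68.Cov.Coord

/-! Adaptive reading of coordinates, and the complete `k`-partite `k`-graph of a `k`-set. -/

namespace Pool.Agent.H68.Cov

open Finset

set_option linter.unusedSectionVars false

variable {V : Type*} [DecidableEq V] {N : Type*} [Fintype N] [DecidableEq N]

/-- Coordinates where the words of `v` and `w` differ. -/
def diff (c : V → N → ℕ) (v w : V) : Finset N := univ.filter (fun j => c v j ≠ c w j)

theorem mem_diff {c : V → N → ℕ} {v w : V} {j : N} : j ∈ diff c v w ↔ c v j ≠ c w j := by
  simp [diff]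

/-- Adaptive reading: start with `S0`, in each round add the coordinates the strategy `step`
derives from the coordinates read so far that separate a pair of members of `e`. -/
def read (c : V → N → ℕ) (step : Finset N → Finset N) (S0 : Finset N) (e : Finset V) :
    ℕ → Finset N
  | 0 => S0
  | t + 1 => read c step S0 e t ∪
      (e ×ˢ e).biUnion (fun p => step ((diff c p.1 p.2) ∩ read c step S0 e t))

theorem read_subset_succ (c : V → N → ℕ) (step : Finset N → Finset N) (S0 : Finset N)
    (e : Finset V) (t : ℕ) : read c step S0 e t ⊆ read c step S0 e (t + 1) := by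
  rw [read]
  exact subset_union_left

theorem read_mono (c : V → N → ℕ) (step : Finset N → Finset N) (S0 : Finset N)
    (e : Finset V) : Monotone (read c step S0 e) :=
  monotone_nat_of_le_succ (fun t => read_subset_succ c step S0 e t)

theorem step_subset_read {c : V → N → ℕ} {step : Finset N → Finset N} {S0 : Finset N}
    {e : Finset V} {t : ℕ} {w w' : V} (hw : w ∈ e) (hw' : w' ∈ e) :
    step (diff c w w' ∩ read c step S0 e t) ⊆ read c step S0 e (t + 1) := by
  rw [read]
  refine Finset.Subset.trans ?_ Finset.subset_union_right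
  intro j hj
  rw [mem_biUnion]
  exact ⟨(w, w'), by simp [hw, hw'], hj⟩

theorem read_image {c : V → N → ℕ} {step : Finset N → Finset N} {S0 : Finset N}
    {e : Finset V} {T : ℕ} {f : V → V}
    (hf : ∀ j ∈ read c step S0 e T, ∀ w ∈ e, ∀ w' ∈ e, (c (f w) j = c (f w') j ↔ c w j = c w' j))
    (t : ℕ) (ht : t ≤ T) : read c step S0 (e.image f) t = read c step S0 e t := by
  induction t with
  | zero => rfl
  | succ t ih =>
    have ih' := ih (by omega)
    rw [read, read, ih']
    congr 1
    have hsub : read c step S0 e t ⊆ read c step S0 e T := read_mono c step S0 e (by omega)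
    have hpair : ∀ w ∈ e, ∀ w' ∈ e, diff c (f w) (f w') ∩ read c step S0 e t =
        diff c w w' ∩ read c step S0 e t := by
      intro w hw w' hw'
      ext j
      simp only [mem_inter, mem_diff]
      constructor
      · rintro ⟨h1, h2⟩
        exact ⟨fun h => h1 ((hf j (hsub h2) w hw w' hw').mpr h), h2⟩
      · rintro ⟨h1, h2⟩
        exact ⟨fun h => h1 ((hf j (hsub h2) w hw w' hw').mp h), h2⟩
    ext j
    simp only [mem_biUnion, mem_product, Prod.exists, mem_image]
    constructor
    · rintro ⟨x, y, ⟨⟨w, hw, rfl⟩, ⟨w', hw', rfl⟩⟩, hj⟩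
      rw [hpair w hw w' hw'] at hj
      exact ⟨w, w', ⟨hw, hw'⟩, hj⟩
    · rintro ⟨w, w', ⟨hw, hw'⟩, hj⟩
      refine ⟨f w, f w', ⟨⟨w, hw, rfl⟩, ⟨w', hw', rfl⟩⟩, ?_⟩
      rw [hpair w hw w' hw']
      exact hj

/-- The cell of `w`: vertices in the same cell as `w` in every coordinate of `S`. -/
def cell [Fintype V] (c : V → N → ℕ) (S : Finset N) (e : Finset V) (w : V) : Finset V :=
  univ.filter (fun v => ∀ j ∈ S,
    iota (pins e (fun x => c x j)) (c v j) = iota (pins e (fun x => c x j)) (c w j))

/-- The parts of the complete `k`-partite `k`-graph of `e`. -/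
def parts [Fintype V] (c : V → N → ℕ) (S : Finset N) (e : Finset V) : Finset (Finset V) :=
  e.image (cell c S e)

/-- `e` meets every member of `P`. -/
def Hits (P : Finset (Finset V)) (e : Finset V) : Prop := ∀ X ∈ P, ∃ v ∈ e, v ∈ X

/-- All pairs of members of `e` differ somewhere on `S`. -/
def Sep (c : V → N → ℕ) (S : Finset N) (e : Finset V) : Prop :=
  ∀ w ∈ e, ∀ w' ∈ e, w ≠ w' → ∃ j ∈ S, c w j ≠ c w' j

variable [Fintype V]

theorem mem_cell {c : V → N → ℕ} {S : Finset N} {e : Finset V} {w v : V} :
    v ∈ cell c S e w ↔ ∀ j ∈ S,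
    iota (pins e (fun x => c x j)) (c v j) = iota (pins e (fun x => c x j)) (c w j) := by
  simp [cell]

theorem self_mem_cell {c : V → N → ℕ} {S : Finset N} {e : Finset V} {w : V} :
    w ∈ cell c S e w := by
  rw [mem_cell]; intros; rfl

theorem iota_ne_of_ne {e : Finset V} {a : V → ℕ} {w w' : V} (hw : w ∈ e) (hw' : w' ∈ e)
    (h : a w ≠ a w') : iota (pins e a) (a w) ≠ iota (pins e a) (a w') := by
  rcases lt_or_gt_of_ne h with h | h
  · obtain ⟨u, hu, h1, h2⟩ := exists_pin_between hw hw' h
    exact (iota_lt _ h hu h1 h2).ne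
  · obtain ⟨u, hu, h1, h2⟩ := exists_pin_between hw' hw h
    exact (iota_lt _ h hu h1 h2).ne'

theorem cell_disjoint {c : V → N → ℕ} {S : Finset N} {e : Finset V} (hs : Sep c S e)
    {w w' : V} (hw : w ∈ e) (hw' : w' ∈ e) (hne : w ≠ w') :
    Disjoint (cell c S e w) (cell c S e w') := by
  rw [Finset.disjoint_left]
  intro v hv hv'
  rw [mem_cell] at hv hv'
  obtain ⟨j, hj, hcj⟩ := hs w hw w' hw' hne
  exact iota_ne_of_ne (a := fun x => c x j) hw hw' hcj ((hv j hj).symm.trans (hv' j hj))

theorem cell_injOn {c : V → N → ℕ} {S : Finset N} {e : Finset V} (hs : Sep c S e) :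
    Set.InjOn (cell c S e) (e : Set V) := by
  intro w hw w' hw' h
  by_contra hne
  have := cell_disjoint hs (by exact_mod_cast hw) (by exact_mod_cast hw') hne
  rw [h, Finset.disjoint_self_iff_empty] at this
  have h2 : w' ∈ cell c S e w' := self_mem_cell
  rw [this] at h2
  simp at h2

theorem card_parts {c : V → N → ℕ} {S : Finset N} {e : Finset V} (hs : Sep c S e) :
    (parts c S e).card = e.card := by
  unfold parts
  exact Finset.card_image_of_injOn (cell_injOn hs)

theorem hits_self {c : V → N → ℕ} {S : Finset N} {e : Finset V} : Hits (parts c S e) e := by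
  intro X hX
  unfold parts at hX
  rw [mem_image] at hX
  obtain ⟨w, hw, rfl⟩ := hX
  exact ⟨w, hw, self_mem_cell⟩

theorem parts_nonempty {c : V → N → ℕ} {S : Finset N} {e : Finset V} :
    ∀ X ∈ parts c S e, X.Nonempty := by
  intro X hX
  obtain ⟨v, _, hv⟩ := hits_self X hX
  exact ⟨v, hv⟩

theorem parts_disjoint {c : V → N → ℕ} {S : Finset N} {e : Finset V} (hs : Sep c S e) :
    ∀ X ∈ parts c S e, ∀ Y ∈ parts c S e, X ≠ Y → Disjoint X Y := by
  intro X hX Y hY hne
  unfold parts at hX hY
  rw [mem_image] at hX hY
  obtain ⟨w, hw, rfl⟩ := hX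
  obtain ⟨w', hw', rfl⟩ := hY
  exact cell_disjoint hs hw hw' (fun h => hne (by rw [h]))

/-- The reading set, the acceptance and the parts are the same for all edges. -/
theorem transport {c : V → N → ℕ} {step : Finset N → Finset N} {S0 : Finset N} {T : ℕ}
    {e e' : Finset V} (hs : Sep c (read c step S0 e T) e) (hc : e'.card = e.card)
    (he' : Hits (parts c (read c step S0 e T) e) e') :
    read c step S0 e' T = read c step S0 e T ∧ Sep c (read c step S0 e' T) e' ∧
      parts c (read c step S0 e' T) e' = parts c (read c step S0 e T) e := by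
  classical
  set S := read c step S0 e T with hS
  have h1 : ∀ w ∈ e, ∃ v ∈ e', v ∈ cell c S e w := by
    intro w hw
    exact he' _ (by unfold parts; exact mem_image_of_mem _ hw)
  choose! f hfe hf using h1
  have hinj : Set.InjOn f (e : Set V) := by
    intro w hw w' hw' h
    by_contra hne
    have hd := cell_disjoint hs (by exact_mod_cast hw) (by exact_mod_cast hw') hne
    rw [Finset.disjoint_left] at hd
    exact hd (hf w (by exact_mod_cast hw)) (by rw [h]; exact hf w' (by exact_mod_cast hw'))
  have himg : e.image f = e' := by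
    apply Finset.eq_of_subset_of_card_le
    · intro x hx
      rw [mem_image] at hx
      obtain ⟨w, hw, rfl⟩ := hx
      exact hfe w hw
    · rw [Finset.card_image_of_injOn hinj, hc]
  have hio : ∀ j ∈ S, ∀ w ∈ e, iota (pins e (fun x => c x j)) (c (f w) j) =
      iota (pins e (fun x => c x j)) (c w j) := by
    intro j hj w hw
    exact (mem_cell.mp (hf w hw)) j hj
  have heq : ∀ j ∈ S, ∀ w ∈ e, ∀ w' ∈ e, (c (f w) j = c (f w') j ↔ c w j = c w' j) := by
    intro j hj w hw w' hw'
    exact eq_iff_of_iota (a := fun x => c x j) (hio j hj) hw hw'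
  have hread : read c step S0 e' T = S := by
    rw [← himg]
    exact read_image heq T le_rfl
  have hpins : ∀ j ∈ S, pins e' (fun x => c x j) = pins e (fun x => c x j) := by
    intro j hj
    rw [← himg]
    exact pins_image (a := fun x => c x j) hinj (hio j hj)
  refine ⟨hread, ?_, ?_⟩
  · rw [hread, ← himg]
    intro x hx y hy hxy
    rw [mem_image] at hx hy
    obtain ⟨w, hw, rfl⟩ := hx
    obtain ⟨w', hw', rfl⟩ := hy
    obtain ⟨j, hj, hcj⟩ := hs w hw w' hw' (fun h => hxy (by rw [h]))
    exact ⟨j, hj, fun h => hcj ((heq j hj w hw w' hw').mp h)⟩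
  · rw [hread]
    unfold parts
    conv_lhs => rw [← himg]
    rw [Finset.image_image]
    apply Finset.image_congr
    intro w hw
    have hw : w ∈ e := by exact_mod_cast hw
    ext v
    simp only [Function.comp, mem_cell]
    constructor
    · intro h j hj
      have := h j hj
      rw [himg, hpins j hj, hio j hj w hw] at this
      exact this
    · intro h j hj
      rw [himg, hpins j hj, hio j hj w hw]
      exact h j hj

/-- The family of one tree. -/
noncomputable def family (c : V → N → ℕ) (step : Finset N → Finset N) (S0 : Finset N) (T k : ℕ) :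
    Finset (Finset (Finset V)) := by
  classical
  exact (((powersetCard k (univ : Finset V)).filter (fun e => Sep c (read c step S0 e T) e)).image
    (fun e => parts c (read c step S0 e T) e))

theorem mem_family {c : V → N → ℕ} {step : Finset N → Finset N} {S0 : Finset N} {T k : ℕ}
    {P : Finset (Finset V)} : P ∈ family c step S0 T k ↔
      ∃ e : Finset V, e.card = k ∧ Sep c (read c step S0 e T) e ∧
        parts c (read c step S0 e T) e = P := by
  classical
  unfold family
  simp only [mem_image, mem_filter, mem_powersetCard, subset_univ, true_and, and_assoc]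

/-- The members of the family of one tree that have a given edge are all equal to its own one. -/
theorem family_unique {c : V → N → ℕ} {step : Finset N → Finset N} {S0 : Finset N} {T k : ℕ}
    {P : Finset (Finset V)} (hP : P ∈ family c step S0 T k) {e' : Finset V} (hc : e'.card = k)
    (h : Hits P e') : P = parts c (read c step S0 e' T) e' := by
  rw [mem_family] at hP
  obtain ⟨e, he, hs, rfl⟩ := hP
  exact (transport hs (hc.trans he.symm) h).2.2.symm

end Pool.Agent.H68.Cov
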