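import Pool.Agent.H68.Cov.Design
import Pool.Agent.H68.Cov.Tree

/-! Reed-Solomon codes. -/

namespace Pool.Agent.H68.Cov

open Finset Polynomial

/-- Any `n ≤ P ^ D` vertices get words of length `|N| ≤ P` over `P` letters, two distinct words
agreeing in fewer than `D` places. -/
theorem exists_code {N : Type*} [Fintype N] [DecidableEq N] (P D n : ℕ) [Fact P.Prime]
    (hN : Fintype.card N ≤ P) (hn : n ≤ P ^ D) :
    ∃ c : Fin n → N → ℕ, (∀ v j, c v j < P) ∧
      ∀ v w, v ≠ w → Fintype.card N < D + (diff c v w).card := by
  classical
  -- evaluation points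
  have h1 : Nonempty (N ↪ ZMod P) := by
    rw [Function.Embedding.nonempty_iff_card_le, ZMod.card]
    exact hN
  obtain ⟨pt⟩ := h1
  have h2 : Nonempty (Fin n ↪ (Fin D → ZMod P)) := by
    rw [Function.Embedding.nonempty_iff_card_le]
    simpa [ZMod.card] using hn
  obtain ⟨a⟩ := h2
  let poly : Fin n → (ZMod P)[X] := fun v =>
    (((degreeLTEquiv (ZMod P) D).symm (a v) : degreeLT (ZMod P) D) : (ZMod P)[X])
  have hinj : Function.Injective poly := by
    intro v w h
    apply a.injective
    apply (degreeLTEquiv (ZMod P) D).symm.injective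
    exact Subtype.ext h
  have hdeg : ∀ v, poly v ∈ degreeLT (ZMod P) D := fun v => Subtype.property _
  refine ⟨fun v j => ((poly v).eval (pt j)).val, fun v j => ZMod.val_lt _, ?_⟩
  intro v w hvw
  have hne : poly v - poly w ≠ 0 := sub_ne_zero.mpr (fun h => hvw (hinj h))
  have hd : (poly v - poly w).degree < D := mem_degreeLT.mp ((degreeLT (ZMod P) D).sub_mem (hdeg v) (hdeg w))
  have hcard : ((univ : Finset N).filter (fun j =>
      ((poly v).eval (pt j)).val = ((poly w).eval (pt j)).val)).card < D := by
    have hsub : ((univ : Finset N).filter (fun j =>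
      ((poly v).eval (pt j)).val = ((poly w).eval (pt j)).val)).image pt ⊆
        (poly v - poly w).roots.toFinset := by
      intro x hx
      rw [mem_image] at hx
      obtain ⟨j, hj, rfl⟩ := hx
      rw [mem_filter] at hj
      rw [Multiset.mem_toFinset, mem_roots hne, IsRoot.def, eval_sub, sub_eq_zero]
      exact ZMod.val_injective P hj.2
    have h3 := Finset.card_le_card hsub
    rw [Finset.card_image_of_injective _ pt.injective] at h3
    have h4 : (poly v - poly w).roots.toFinset.card ≤ (poly v - poly w).natDegree :=
      (Multiset.toFinset_card_le _).trans (card_roots' _)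
    have h5 : (poly v - poly w).natDegree < D := (natDegree_lt_iff_degree_lt hne).mpr hd
    omega
  have hsplit := Finset.card_filter_add_card_filter_not (s := (univ : Finset N)) (fun j =>
    ((poly v).eval (pt j)).val = ((poly w).eval (pt j)).val)
  rw [Finset.card_univ] at hsplit
  have hdiff : (diff (fun v j => ((poly v).eval (pt j)).val) v w) = univ.filter (fun j =>
      ¬ ((poly v).eval (pt j)).val = ((poly w).eval (pt j)).val) := rfl
  rw [hdiff]
  omega

/-- Two distinct words differ in many places of some block. -/
theorem exists_block {l p s : ℕ} [NeZero p] {n : ℕ} {c : Fin n → Fin l × (ZMod p × ZMod p) → ℕ}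
    {v w : Fin n} (h : l * (s - 1) < (diff c v w).card) :
    ∃ i, s ≤ (diff c v w ∩ block l p i).card := by
  classical
  by_contra hcon
  push Not at hcon
  have h1 : (diff c v w).card = ∑ i : Fin l, (diff c v w ∩ block l p i).card := by
    rw [← Finset.card_biUnion]
    · congr 1
      ext y
      simp [block]
    · intro i _ j _ hij
      simp only [Function.onFun]
      rw [Finset.disjoint_left]
      intro y hy hy'
      simp only [block, mem_inter, mem_filter, mem_univ, true_and] at hy hy'
      exact hij (hy.2.symm.trans hy'.2)
  have h2 : ∑ i : Fin l, (diff c v w ∩ block l p i).card ≤ ∑ _i : Fin l, (s - 1) :=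
    Finset.sum_le_sum (fun i _ => by have := hcon i; omega)
  simp at h2
  omega

end Pool.Agent.H68.Cov
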