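import Mathlib

/-! One coordinate: cutting the values of a `k`-set into cells with at most `k/2` pinned values. -/

namespace Pool.Agent.H68.Cov

open Finset

/-- The number of members of `e` whose value is below `v`. -/
def rk {α : Type*} (e : Finset α) (a : α → ℕ) (v : ℕ) : ℕ := (e.filter (fun w => a w < v)).card

/-- The pinned values of `e`: repeated values, and values with an odd number of smaller ones. -/
def pins {α : Type*} [DecidableEq α] (e : Finset α) (a : α → ℕ) : Finset ℕ :=
  (e.filter (fun w => (∃ w' ∈ e, w' ≠ w ∧ a w' = a w) ∨ Odd (rk e a (a w)))).image a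

/-- The index of the cell of `v` cut out by the pinned set `U`. -/
def iota (U : Finset ℕ) (v : ℕ) : ℕ := 2 * (U.filter (· < v)).card + if v ∈ U then 1 else 0

theorem iota_mono (U : Finset ℕ) {v w : ℕ} (h : v ≤ w) : iota U v ≤ iota U w := by
  rcases h.eq_or_lt with rfl | h
  · exact le_rfl
  unfold iota
  by_cases hv : v ∈ U
  · have h1 : (U.filter (· < v)).card + 1 ≤ (U.filter (· < w)).card := by
      rw [← Finset.card_insert_of_notMem (s := U.filter (· < v)) (a := v) (by simp)]
      apply Finset.card_le_card
      intro x hx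
      simp only [mem_insert, mem_filter] at hx ⊢
      rcases hx with rfl | hx
      · exact ⟨hv, h⟩
      · exact ⟨hx.1, hx.2.trans h⟩
    simp only [hv, if_true]
    omega
  · have h1 : (U.filter (· < v)).card ≤ (U.filter (· < w)).card := by
      apply Finset.card_le_card
      intro x hx
      simp only [mem_filter] at hx ⊢
      exact ⟨hx.1, hx.2.trans h⟩
    simp only [hv, if_false]
    omega

theorem iota_lt (U : Finset ℕ) {v w u : ℕ} (h : v < w) (hu : u ∈ U) (h1 : v ≤ u) (h2 : u ≤ w) :
    iota U v < iota U w := by
  unfold iota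
  by_cases hv : v ∈ U
  · have h1 : (U.filter (· < v)).card + 1 ≤ (U.filter (· < w)).card := by
      rw [← Finset.card_insert_of_notMem (s := U.filter (· < v)) (a := v) (by simp)]
      apply Finset.card_le_card
      intro x hx
      simp only [mem_insert, mem_filter] at hx ⊢
      rcases hx with rfl | hx
      · exact ⟨hv, h⟩
      · exact ⟨hx.1, hx.2.trans h⟩
    simp only [hv, if_true]
    omega
  · simp only [hv, if_false]
    have hvu : v < u := lt_of_le_of_ne h1 (fun h => hv (h ▸ hu))
    rcases h2.eq_or_lt with rfl | huw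
    · have h1 : (U.filter (· < v)).card ≤ (U.filter (· < u)).card := by
        apply Finset.card_le_card
        intro x hx
        simp only [mem_filter] at hx ⊢
        exact ⟨hx.1, hx.2.trans h⟩
      simp only [hu, if_true]
      omega
    · have h1 : (U.filter (· < v)).card + 1 ≤ (U.filter (· < w)).card := by
        rw [← Finset.card_insert_of_notMem (s := U.filter (· < v)) (a := u) (by simp; omega)]
        apply Finset.card_le_card
        intro x hx
        simp only [mem_insert, mem_filter] at hx ⊢
        rcases hx with rfl | hx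
        · exact ⟨hu, huw⟩
        · exact ⟨hx.1, hx.2.trans h⟩
      omega

theorem eq_of_iota_eq_mem {U : Finset ℕ} {u v : ℕ} (hu : u ∈ U) (h : iota U v = iota U u) :
    v = u := by
  rcases lt_trichotomy v u with h' | h' | h'
  · exact absurd h (iota_lt U h' hu h'.le le_rfl).ne
  · exact h'
  · exact absurd h.symm (iota_lt U h' hu le_rfl h'.le).ne

theorem iota_le {U : Finset ℕ} {v : ℕ} : iota U v ≤ 2 * U.card + 1 := by
  unfold iota
  have := Finset.card_filter_le U (· < v)
  split_ifs <;> omega

variable {α : Type*} [DecidableEq α]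

theorem mem_pins_of_rep {e : Finset α} {a : α → ℕ} {w w' : α} (hw : w ∈ e) (hw' : w' ∈ e)
    (hne : w ≠ w') (h : a w = a w') : a w ∈ pins e a := by
  unfold pins
  rw [mem_image]
  exact ⟨w, by rw [mem_filter]; exact ⟨hw, Or.inl ⟨w', hw', hne.symm, h.symm⟩⟩, rfl⟩

theorem exists_pin_between {e : Finset α} {a : α → ℕ} {w w' : α} (hw : w ∈ e) (hw' : w' ∈ e)
    (h : a w < a w') : ∃ u ∈ pins e a, a w ≤ u ∧ u ≤ a w' := by
  by_cases hpw : a w ∈ pins e a
  · exact ⟨_, hpw, le_rfl, h.le⟩
  -- smallest value above `a w`
  have hne : (e.filter (fun z => a w < a z)).Nonempty := ⟨w', by simp [hw', h]⟩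
  obtain ⟨z, hz, hzmin⟩ := Finset.exists_min_image _ a hne
  rw [mem_filter] at hz
  have hrep : ∀ y ∈ e, a y = a w → y = w := by
    intro y hy hay
    by_contra hyw
    exact hpw (mem_pins_of_rep hw hy (Ne.symm hyw) hay.symm)
  have hodd : ¬ Odd (rk e a (a w)) := by
    intro ho
    apply hpw
    unfold pins
    rw [mem_image]
    exact ⟨w, by rw [mem_filter]; exact ⟨hw, Or.inr ho⟩, rfl⟩
  have hrk : rk e a (a z) = rk e a (a w) + 1 := by
    unfold rk
    rw [← Finset.card_insert_of_notMem (s := e.filter (fun y => a y < a w)) (a := w) (by simp)]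
    congr 1
    ext y
    simp only [mem_insert, mem_filter]
    constructor
    · rintro ⟨hy, hyz⟩
      rcases lt_trichotomy (a y) (a w) with h1 | h1 | h1
      · exact Or.inr ⟨hy, h1⟩
      · exact Or.inl (hrep y hy h1)
      · exact absurd (hzmin y (by simp [hy, h1])) (by omega)
    · rintro (rfl | ⟨hy, hyw⟩)
      · exact ⟨hw, hz.2⟩
      · exact ⟨hy, hyw.trans hz.2⟩
  refine ⟨a z, ?_, hz.2.le, hzmin w' (by simp [hw', h])⟩
  unfold pins
  rw [mem_image]
  refine ⟨z, ?_, rfl⟩
  rw [mem_filter]
  refine ⟨hz.1, Or.inr ?_⟩
  rw [hrk]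
  exact (Nat.not_odd_iff_even.mp hodd).add_one

/-- The two halves of the transport: a set in the same cells has the same order type. -/
theorem lt_iff_of_iota {e : Finset α} {a : α → ℕ} {f : α → α}
    (hf : ∀ w ∈ e, iota (pins e a) (a (f w)) = iota (pins e a) (a w))
    {w w' : α} (hw : w ∈ e) (hw' : w' ∈ e) : a (f w) < a (f w') ↔ a w < a w' := by
  have key : ∀ x ∈ e, ∀ y ∈ e, a x < a y → a (f x) < a (f y) := by
    intro x hx y hy hxy
    obtain ⟨u, hu, h1, h2⟩ := exists_pin_between hx hy hxy
    by_contra hcon
    have := iota_mono (pins e a) (not_lt.mp hcon)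
    rw [hf x hx, hf y hy] at this
    exact absurd this (not_le.mpr (iota_lt _ hxy hu h1 h2))
  constructor
  · intro h
    rcases lt_trichotomy (a w) (a w') with h1 | h1 | h1
    · exact h1
    · exfalso
      by_cases hww : w = w'
      · subst hww; exact lt_irrefl _ h
      · have hp := mem_pins_of_rep hw hw' hww h1
        have e1 := eq_of_iota_eq_mem hp (hf w hw)
        have e2 : a (f w') = a w := by
          apply eq_of_iota_eq_mem hp
          rw [hf w' hw', h1]
        omega
    · exact absurd (key w' hw' w hw h1) (by omega)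
  · exact key w hw w' hw'

theorem eq_iff_of_iota {e : Finset α} {a : α → ℕ} {f : α → α}
    (hf : ∀ w ∈ e, iota (pins e a) (a (f w)) = iota (pins e a) (a w))
    {w w' : α} (hw : w ∈ e) (hw' : w' ∈ e) : a (f w) = a (f w') ↔ a w = a w' := by
  have h1 := lt_iff_of_iota hf hw hw'
  have h2 := lt_iff_of_iota hf hw' hw
  omega

theorem pins_image {e : Finset α} {a : α → ℕ} {f : α → α} (hinj : Set.InjOn f e)
    (hf : ∀ w ∈ e, iota (pins e a) (a (f w)) = iota (pins e a) (a w)) :
    pins (e.image f) a = pins e a := by
  have hrk : ∀ w ∈ e, rk (e.image f) a (a (f w)) = rk e a (a w) := by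
    intro w hw
    unfold rk
    have : (e.image f).filter (fun z => a z < a (f w)) = (e.filter (fun z => a z < a w)).image f := by
      ext z
      simp only [mem_filter, mem_image]
      constructor
      · rintro ⟨⟨x, hx, rfl⟩, h⟩
        exact ⟨x, ⟨hx, (lt_iff_of_iota hf hx hw).mp h⟩, rfl⟩
      · rintro ⟨x, ⟨hx, h⟩, rfl⟩
        exact ⟨⟨x, hx, rfl⟩, (lt_iff_of_iota hf hx hw).mpr h⟩
    rw [this, Finset.card_image_of_injOn]
    exact hinj.mono (by intro x hx; exact_mod_cast (mem_filter.mp (by exact_mod_cast hx)).1)
  have hcond : ∀ w ∈ e, ((∃ w' ∈ e.image f, w' ≠ f w ∧ a w' = a (f w)) ∨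
      Odd (rk (e.image f) a (a (f w)))) ↔
      ((∃ w' ∈ e, w' ≠ w ∧ a w' = a w) ∨ Odd (rk e a (a w))) := by
    intro w hw
    rw [hrk w hw]
    apply or_congr_left
    constructor
    · rintro ⟨z, hz, hne, h⟩
      rw [mem_image] at hz
      obtain ⟨x, hx, rfl⟩ := hz
      refine ⟨x, hx, ?_, (eq_iff_of_iota hf hx hw).mp h⟩
      rintro rfl
      exact hne rfl
    · rintro ⟨x, hx, hne, h⟩
      refine ⟨f x, mem_image_of_mem f hx, ?_, (eq_iff_of_iota hf hx hw).mpr h⟩
      intro hfx
      exact hne (hinj (by exact_mod_cast hx) (by exact_mod_cast hw) hfx)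
  ext u
  unfold pins
  simp only [mem_image, mem_filter]
  constructor
  · rintro ⟨z, ⟨⟨x, hx, rfl⟩, hc⟩, rfl⟩
    have hc' := (hcond x hx).mp (by simpa only [mem_image] using hc)
    refine ⟨x, ⟨hx, hc'⟩, ?_⟩
    have hp : a x ∈ pins e a := by
      unfold pins
      rw [mem_image]
      exact ⟨x, by rw [mem_filter]; exact ⟨hx, hc'⟩, rfl⟩
    exact (eq_of_iota_eq_mem hp (hf x hx)).symm
  · rintro ⟨x, ⟨hx, hc⟩, rfl⟩
    refine ⟨f x, ⟨⟨x, hx, rfl⟩, ?_⟩, ?_⟩
    · have := (hcond x hx).mpr hc
      simpa only [mem_image] using this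
    · have hp : a x ∈ pins e a := by
        unfold pins
        rw [mem_image]
        exact ⟨x, by rw [mem_filter]; exact ⟨hx, hc⟩, rfl⟩
      exact eq_of_iota_eq_mem hp (hf x hx)

/-- At most half of the members are used for pins. -/
theorem two_mul_card_pins (e : Finset α) (a : α → ℕ) : 2 * (pins e a).card ≤ e.card := by
  have key : ∀ v : ℕ, 2 * ((pins e a).filter (· < v)).card ≤ rk e a v := by
    intro v
    induction v with
    | zero => simp [rk]
    | succ v ih =>
      have hs1 : (pins e a).filter (· < v + 1) =
          (pins e a).filter (· < v) ∪ (pins e a).filter (· = v) := by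
        ext x; simp only [mem_filter, mem_union]; constructor
        · rintro ⟨h1, h2⟩
          rcases (Nat.lt_succ_iff_lt_or_eq.mp h2) with h | h
          · exact Or.inl ⟨h1, h⟩
          · exact Or.inr ⟨h1, h⟩
        · rintro (⟨h1, h2⟩ | ⟨h1, h2⟩)
          · exact ⟨h1, by omega⟩
          · exact ⟨h1, by omega⟩
      have hs2 : e.filter (fun w => a w < v + 1) =
          e.filter (fun w => a w < v) ∪ e.filter (fun w => a w = v) := by
        ext x; simp only [mem_filter, mem_union]; constructor
        · rintro ⟨h1, h2⟩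
          rcases (Nat.lt_succ_iff_lt_or_eq.mp h2) with h | h
          · exact Or.inl ⟨h1, h⟩
          · exact Or.inr ⟨h1, h⟩
        · rintro (⟨h1, h2⟩ | ⟨h1, h2⟩)
          · exact ⟨h1, by omega⟩
          · exact ⟨h1, by omega⟩
      have hd2 : Disjoint (e.filter (fun w => a w < v)) (e.filter (fun w => a w = v)) := by
        rw [Finset.disjoint_left]
        intro x hx hx'
        simp only [mem_filter] at hx hx'
        omega
      have hc2 : rk e a (v + 1) = rk e a v + (e.filter (fun w => a w = v)).card := by
        unfold rk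
        rw [hs2, Finset.card_union_of_disjoint hd2]
      have hle1 : ((pins e a).filter (· = v)).card ≤ 1 := by
        rw [Finset.card_le_one]
        intro x hx y hy
        simp only [mem_filter] at hx hy
        omega
      have hc1 : ((pins e a).filter (· < v + 1)).card ≤
          ((pins e a).filter (· < v)).card + ((pins e a).filter (· = v)).card := by
        rw [hs1]
        exact Finset.card_union_le _ _
      by_cases hv : v ∈ pins e a
      · have hv' := hv
        unfold pins at hv'
        rw [mem_image] at hv'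
        obtain ⟨w, hw, hwv⟩ := hv'
        rw [mem_filter] at hw
        obtain ⟨hwe, hcond⟩ := hw
        rcases hcond with ⟨w', hw', hne, heq⟩ | hodd
        · have h2 : 2 ≤ (e.filter (fun w => a w = v)).card := by
            rw [← Finset.card_pair hne]
            apply Finset.card_le_card
            intro x hx
            simp only [mem_insert, mem_singleton] at hx
            rcases hx with rfl | rfl
            · simp [hw', heq, hwv]
            · simp [hwe, hwv]
          omega
        · rw [hwv] at hodd
          have h1 : 1 ≤ (e.filter (fun w => a w = v)).card := by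
            rw [Nat.one_le_iff_ne_zero, Finset.card_ne_zero]
            exact ⟨w, by simp [hwe, hwv]⟩
          obtain ⟨t, ht⟩ := hodd
          omega
      · have h0 : ((pins e a).filter (· = v)).card = 0 := by
          rw [Finset.card_eq_zero]
          ext x
          simp only [mem_filter, notMem_empty, iff_false, not_and]
          rintro hx rfl
          exact hv hx
        omega
  have hall := key ((pins e a).sup id + 1)
  have h1 : (pins e a).filter (· < (pins e a).sup id + 1) = pins e a := by
    rw [Finset.filter_true_of_mem]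
    intro x hx
    have : x ≤ (pins e a).sup id := Finset.le_sup (f := id) hx
    omega
  rw [h1] at hall
  exact hall.trans (Finset.card_filter_le _ _)

end Pool.Agent.H68.Cov
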