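import Pool.Agent.H68.Cov.Tree

/-! Counting the family of one tree. -/

namespace Pool.Agent.H68.Cov

open Finset

/-- The set of values coded by `g`. -/
def uset {h Q : ℕ} (g : Fin h → Option (Fin Q)) : Finset ℕ :=
  (univ : Finset (Fin h)).biUnion (fun i => (g i).elim ∅ (fun q => {(q : ℕ)}))

theorem exists_uset {h Q : ℕ} (U : Finset ℕ) (hc : U.card ≤ h) (hU : ∀ u ∈ U, u < Q) :
    ∃ g : Fin h → Option (Fin Q), uset g = U := by
  classical
  let eqv := U.equivFin
  refine ⟨fun i => if hi : (i : ℕ) < U.card then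
    some ⟨(eqv.symm ⟨i, hi⟩ : U), hU _ (eqv.symm ⟨i, hi⟩).2⟩ else none, ?_⟩
  ext u
  simp only [uset, mem_biUnion, mem_univ, true_and]
  constructor
  · rintro ⟨i, hq⟩
    by_cases hi : (i : ℕ) < U.card
    · rw [dif_pos hi] at hq
      simp only [Option.elim_some, mem_singleton] at hq
      rw [hq]
      exact (eqv.symm ⟨i, hi⟩).2
    · rw [dif_neg hi] at hq
      simp at hq
  · intro hu
    refine ⟨⟨(eqv ⟨u, hu⟩ : Fin U.card), lt_of_lt_of_le (eqv ⟨u, hu⟩).2 hc⟩, ?_⟩
    rw [dif_pos (eqv ⟨u, hu⟩).2]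
    simp

theorem exists_range {α : Type*} [DecidableEq α] (A : Finset α) (hA : A.Nonempty) {D : ℕ}
    (hD : A.card ≤ D) : ∃ s : Fin D → α, univ.image s = A := by
  classical
  let eqv := A.equivFin
  obtain ⟨a0, ha0⟩ := hA
  refine ⟨fun i => if hi : (i : ℕ) < A.card then ((eqv.symm ⟨i, hi⟩ : A) : α) else a0, ?_⟩
  ext a
  simp only [mem_image, mem_univ, true_and]
  constructor
  · rintro ⟨i, rfl⟩
    split_ifs with hi
    · exact (eqv.symm ⟨i, hi⟩).2
    · exact ha0
  · intro ha
    refine ⟨⟨(eqv ⟨a, ha⟩ : Fin A.card), lt_of_lt_of_le (eqv ⟨a, ha⟩).2 hD⟩, ?_⟩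
    rw [dif_pos (eqv ⟨a, ha⟩).2]
    simp

variable {V : Type*} [DecidableEq V] [Fintype V] {N : Type*} [Fintype N] [DecidableEq N]

/-- The parts coded by a label. -/
def decode (c : V → N → ℕ) {D0 h Q k : ℕ} (s : Fin D0 → N) (u : Fin D0 → Fin h → Option (Fin Q))
    (t : Fin k → N → Fin (2 * h + 2)) : Finset (Finset V) :=
  univ.image (fun r : Fin k => univ.filter
    (fun v : V => ∀ a : Fin D0, iota (uset (u a)) (c v (s a)) = (t r (s a) : ℕ)))

theorem exists_decode {c : V → N → ℕ} {D0 h Q k : ℕ} (hQ : ∀ v j, c v j < Q) {S : Finset N}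
    (hS : S.Nonempty) (hSD : S.card ≤ D0) {e : Finset V} (he : e.card = k) (hk : k / 2 ≤ h) :
    ∃ s : Fin D0 → N, ∃ u : Fin D0 → Fin h → Option (Fin Q), ∃ t : Fin k → N → Fin (2 * h + 2),
      decode c s u t = parts c S e := by
  classical
  obtain ⟨s, hs⟩ := exists_range S hS hSD
  have hpc : ∀ j, (pins e (fun x => c x j)).card ≤ h := by
    intro j
    have := two_mul_card_pins e (fun x => c x j)
    omega
  have hpQ : ∀ j, ∀ u ∈ pins e (fun x => c x j), u < Q := by
    intro j u hu
    unfold pins at hu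
    rw [mem_image] at hu
    obtain ⟨w, _, rfl⟩ := hu
    exact hQ w j
  have hg : ∀ j, ∃ g : Fin h → Option (Fin Q), uset g = pins e (fun x => c x j) :=
    fun j => exists_uset _ (hpc j) (hpQ j)
  choose g hg using hg
  have hek : Fintype.card (Fin k) = Fintype.card e := by simp [he]
  let eqv : Fin k ≃ e := Fintype.equivOfCardEq hek
  refine ⟨s, fun a => g (s a), fun r j => ⟨iota (pins e (fun x => c x j)) (c (eqv r) j), ?_⟩, ?_⟩
  · have h1 : iota (pins e (fun x => c x j)) (c (eqv r) j) ≤
        2 * (pins e (fun x => c x j)).card + 1 := iota_le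
    have h2 := hpc j
    omega
  · have hcell : ∀ r : Fin k, (univ.filter (fun v : V => ∀ a : Fin D0,
        iota (uset (g (s a))) (c v (s a)) =
          iota (pins e (fun x => c x (s a))) (c (eqv r) (s a)))) = cell c S e (eqv r) := by
      intro r
      ext v
      simp only [mem_filter, mem_univ, true_and, mem_cell, hg]
      constructor
      · intro h j hj
        rw [← hs, mem_image] at hj
        obtain ⟨a, _, rfl⟩ := hj
        exact h a
      · intro h a
        exact h (s a) (by rw [← hs]; exact mem_image_of_mem _ (mem_univ _))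
    unfold decode parts
    ext X
    simp only [mem_image, mem_univ, true_and]
    constructor
    · rintro ⟨r, rfl⟩
      refine ⟨eqv r, (eqv r).2, ?_⟩
      exact (hcell r).symm
    · rintro ⟨w, hw, rfl⟩
      refine ⟨eqv.symm ⟨w, hw⟩, ?_⟩
      have := hcell (eqv.symm ⟨w, hw⟩)
      simp only [Equiv.apply_symm_apply] at this ⊢
      exact this

theorem card_family_le {c : V → N → ℕ} {D0 h Q k : ℕ} (hQ : ∀ v j, c v j < Q)
    {step : Finset N → Finset N} {S0 : Finset N} {T : ℕ} (hS0 : S0.Nonempty)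
    (hD0 : ∀ e : Finset V, e.card = k → (read c step S0 e T).card ≤ D0) (hk : k / 2 ≤ h) :
    (family c step S0 T k).card ≤
      (Fintype.card N) ^ D0 * (((Q + 1) ^ h) ^ D0) * (((2 * h + 2) ^ Fintype.card N) ^ k) := by
  classical
  let L := (Fin D0 → N) × (Fin D0 → Fin h → Option (Fin Q)) × (Fin k → N → Fin (2 * h + 2))
  have hsub : family c step S0 T k ⊆
      (univ : Finset L).image (fun l => decode c l.1 l.2.1 l.2.2) := by
    intro P hP
    rw [mem_family] at hP
    obtain ⟨e, he, _, rfl⟩ := hP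
    have hne : (read c step S0 e T).Nonempty :=
      hS0.mono (read_mono c step S0 e (Nat.zero_le T))
    obtain ⟨s, u, t, hst⟩ := exists_decode (h := h) hQ hne (hD0 e he) he hk
    rw [mem_image]
    exact ⟨(s, u, t), mem_univ _, hst⟩
  refine (Finset.card_le_card hsub).trans (Finset.card_image_le.trans ?_)
  rw [Finset.card_univ]
  simp only [L, Fintype.card_prod, Fintype.card_fun, Fintype.card_fin, Fintype.card_option]
  rw [mul_assoc]

end Pool.Agent.H68.Cov
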