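import Mathlib

/-! The definitions of the problem. -/

namespace Pool.Agent.H68.Cov

open Finset

/-- `e` is an edge of the complete `k`-partite `k`-graph with parts `X 0, ..., X (k-1)`:
`e` consists of one vertex from each part. -/
def EdgeOf {k n : ℕ} (X : Fin k → Finset (Fin n)) (e : Finset (Fin n)) : Prop :=
  ∃ x : Fin k → Fin n, (∀ r, x r ∈ X r) ∧ e = univ.image x

/-- The complete `k`-partite `k`-graphs `H 0, ..., H (m-1)` (given by their nonempty, pairwise
disjoint parts) cover every `k`-subset of the `n` vertices at least once and at most `l` times. -/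
def IsCovering (k l n m : ℕ) (H : Fin m → Fin k → Finset (Fin n)) : Prop :=
  (∀ i r, (H i r).Nonempty) ∧ (∀ i r s, r ≠ s → Disjoint (H i r) (H i s)) ∧
    ∀ e : Finset (Fin n), e.card = k →
      1 ≤ {i : Fin m | EdgeOf (H i) e}.ncard ∧ {i : Fin m | EdgeOf (H i) e}.ncard ≤ l

/-- `m_{k,l}(n)`: the least number of members of a `k`-partite covering of order `l`. -/
noncomputable def minCov (k l n : ℕ) : ℕ :=
  sInf {m : ℕ | ∃ H : Fin m → Fin k → Finset (Fin n), IsCovering k l n m H}

end Pool.Agent.H68.Cov
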