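import Mathlib

/-! Lines in the affine plane over `ZMod p` as hitting sets. -/

namespace Pool.Agent.H68.Cov

open Finset

/-- The line `y = a x + b` repeated in every block. -/
def lineSet (l p : ℕ) [NeZero p] (y : Fin l × (ZMod p × ZMod p)) :
    Finset (Fin l × (ZMod p × ZMod p)) :=
  (univ : Finset (Fin l × ZMod p)).image (fun z => (z.1, (z.2, y.2.1 * z.2 + y.2.2)))

/-- The block `i`. -/
def block (l p : ℕ) [NeZero p] (i : Fin l) : Finset (Fin l × (ZMod p × ZMod p)) :=
  univ.filter (fun y => y.1 = i)

theorem card_lineSet_le (l p : ℕ) [NeZero p] (y : Fin l × (ZMod p × ZMod p)) :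
    (lineSet l p y).card ≤ l * p := by
  unfold lineSet
  refine Finset.card_image_le.trans ?_
  simp [ZMod.card]

theorem card_block (l p : ℕ) [NeZero p] (i : Fin l) : (block l p i).card = p * p := by
  have : block l p i = (univ : Finset (ZMod p × ZMod p)).image (fun x => (i, x)) := by
    ext y
    simp only [block, mem_filter, mem_univ, true_and, mem_image]
    constructor
    · rintro rfl; exact ⟨y.2, rfl⟩
    · rintro ⟨x, rfl⟩; rfl
  rw [this, Finset.card_image_of_injective]
  · simp [ZMod.card]
  · intro a b h; simpa using h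

/-- Lines missing a set `Y` of points: at most `p ^ 3 / |Y|`. -/
theorem missing_lines (p : ℕ) [Fact p.Prime] (Y : Finset (ZMod p × ZMod p)) :
    Y.card * ((univ : Finset (ZMod p × ZMod p)).filter
      (fun ab => ∀ u : ZMod p, (u, ab.1 * u + ab.2) ∉ Y)).card ≤ p ^ 3 := by
  classical
  set M := (univ : Finset (ZMod p × ZMod p)).filter
      (fun ab => ∀ u : ZMod p, (u, ab.1 * u + ab.2) ∉ Y) with hM
  set W := (univ : Finset (ZMod p × ZMod p)) \ Y with hW
  have hWcard : W.card + Y.card = p ^ 2 := by
    rw [hW, Finset.card_sdiff_add_card_eq_card (subset_univ _)]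
    simp [ZMod.card, sq]
  -- degrees
  set deg : ZMod p × ZMod p → ℕ := fun x => (M.filter (fun ab => ab.1 * x.1 + ab.2 = x.2)).card
    with hdeg
  have hsum1 : ∑ x ∈ W, deg x = M.card * p := by
    have h1 : ∑ x ∈ W, deg x = ∑ ab ∈ M, (W.filter (fun x => ab.1 * x.1 + ab.2 = x.2)).card := by
      simp only [hdeg, Finset.card_filter]
      rw [Finset.sum_comm]
    rw [h1, Finset.sum_const_nat]
    intro ab hab
    have : W.filter (fun x => ab.1 * x.1 + ab.2 = x.2) =
        (univ : Finset (ZMod p)).image (fun u => (u, ab.1 * u + ab.2)) := by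
      ext x
      simp only [mem_filter, mem_image, mem_univ, true_and, hW, mem_sdiff]
      constructor
      · rintro ⟨_, h2⟩
        exact ⟨x.1, by rw [h2]⟩
      · rintro ⟨u, rfl⟩
        rw [hM, mem_filter] at hab
        exact ⟨hab.2 u, rfl⟩
    rw [this, Finset.card_image_of_injective]
    · simp [ZMod.card]
    · intro a b h
      exact (Prod.ext_iff.mp h).1
  have hsum2 : ∑ x ∈ W, (deg x) ^ 2 ≤ M.card * p + M.card ^ 2 := by
    have h1 : ∀ x, (deg x) ^ 2 = ((M ×ˢ M).filter (fun q => q.1.1 * x.1 + q.1.2 = x.2 ∧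
        q.2.1 * x.1 + q.2.2 = x.2)).card := by
      intro x
      rw [Finset.filter_product (fun ab : ZMod p × ZMod p => ab.1 * x.1 + ab.2 = x.2)
        (fun ab : ZMod p × ZMod p => ab.1 * x.1 + ab.2 = x.2), Finset.card_product, sq]
    have h2 : ∑ x ∈ W, (deg x) ^ 2 ≤ ∑ x ∈ (univ : Finset (ZMod p × ZMod p)),
        ((M ×ˢ M).filter (fun q => q.1.1 * x.1 + q.1.2 = x.2 ∧
        q.2.1 * x.1 + q.2.2 = x.2)).card := by
      simp only [h1]
      exact Finset.sum_le_sum_of_subset (subset_univ _)
    refine h2.trans ?_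
    have h3 : ∑ x ∈ (univ : Finset (ZMod p × ZMod p)),
        ((M ×ˢ M).filter (fun q => q.1.1 * x.1 + q.1.2 = x.2 ∧
        q.2.1 * x.1 + q.2.2 = x.2)).card = ∑ q ∈ M ×ˢ M,
        ((univ : Finset (ZMod p × ZMod p)).filter (fun x => q.1.1 * x.1 + q.1.2 = x.2 ∧
        q.2.1 * x.1 + q.2.2 = x.2)).card := by
      simp only [Finset.card_filter]
      rw [Finset.sum_comm]
    rw [h3]
    have h4 : ∀ q ∈ M ×ˢ M, ((univ : Finset (ZMod p × ZMod p)).filter
        (fun x => q.1.1 * x.1 + q.1.2 = x.2 ∧ q.2.1 * x.1 + q.2.2 = x.2)).card ≤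
        (if q.1 = q.2 then p else 0) + 1 := by
      rintro ⟨⟨a, b⟩, ⟨a', b'⟩⟩ _
      simp only [Prod.mk.injEq]
      split_ifs with h
      · obtain ⟨rfl, rfl⟩ := h
        have : (univ : Finset (ZMod p × ZMod p)).filter
            (fun x => a * x.1 + b = x.2 ∧ a * x.1 + b = x.2) =
            (univ : Finset (ZMod p)).image (fun u => (u, a * u + b)) := by
          ext x
          simp only [mem_filter, mem_image, mem_univ, true_and, and_self]
          constructor
          · intro h2; exact ⟨x.1, by rw [h2]⟩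
          · rintro ⟨u, rfl⟩; rfl
        rw [this]
        refine Finset.card_image_le.trans ?_
        simp [ZMod.card]
      · rw [zero_add, Finset.card_le_one]
        rintro ⟨x, y⟩ hx ⟨x', y'⟩ hx'
        simp only [mem_filter, mem_univ, true_and] at hx hx'
        obtain ⟨h1, h2⟩ := hx
        obtain ⟨h1', h2'⟩ := hx'
        by_cases haa : a = a'
        · subst haa
          exfalso
          apply h
          refine ⟨rfl, ?_⟩
          have := h1.trans h2.symm
          exact add_left_cancel this
        · have hx : (a - a') * x = b' - b := by linear_combination h1 - h2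
          have hx' : (a - a') * x' = b' - b := by linear_combination h1' - h2'
          have hne : a - a' ≠ 0 := sub_ne_zero.mpr haa
          have hxx : x = x' := mul_left_cancel₀ hne (hx.trans hx'.symm)
          subst hxx
          rw [← h1, ← h1']
    refine (Finset.sum_le_sum h4).trans ?_
    rw [Finset.sum_add_distrib]
    have h5 : ∑ q ∈ M ×ˢ M, (if q.1 = q.2 then p else 0) = M.card * p := by
      rw [Finset.sum_product]
      simp [Finset.sum_ite_eq]
    rw [h5]
    simp [Finset.card_product, sq]
  have hCS : (M.card * p) ^ 2 ≤ W.card * (M.card * p + M.card ^ 2) := by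
    rw [← hsum1]
    refine (sq_sum_le_card_mul_sum_sq (s := W) (f := deg)).trans ?_
    rw [hsum1]
    exact Nat.mul_le_mul_left _ hsum2
  rcases Nat.eq_zero_or_pos M.card with h0 | hpos
  · rw [h0]; simp
  · -- cancel `M.card`
    have h1 : M.card * (M.card * p ^ 2) ≤ M.card * (W.card * (p + M.card)) := by
      calc M.card * (M.card * p ^ 2) = (M.card * p) ^ 2 := by ring
        _ ≤ _ := hCS
        _ = _ := by ring
    have h2 : M.card * p ^ 2 ≤ W.card * (p + M.card) := Nat.le_of_mul_le_mul_left h1 hpos
    rw [← hWcard] at h2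
    have h3 : Y.card * M.card ≤ W.card * p := by nlinarith
    refine h3.trans ?_
    have h4 : W.card ≤ p ^ 2 := by omega
    calc W.card * p ≤ p ^ 2 * p := Nat.mul_le_mul_right _ h4
      _ = p ^ 3 := by ring

theorem card_disjoint_lineSet_le (l p : ℕ) [Fact p.Prime] {s : ℕ} (hs : 1 ≤ s) (i : Fin l)
    (Y : Finset (Fin l × (ZMod p × ZMod p))) (hY : Y ⊆ block l p i) (hc : s ≤ Y.card) :
    ((univ : Finset (Fin l × (ZMod p × ZMod p))).filter
      (fun y => Disjoint (lineSet l p y) Y)).card ≤ l * (p ^ 3 / s) := by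
  classical
  set Y' : Finset (ZMod p × ZMod p) := Y.image Prod.snd with hY'
  have hcard : Y'.card = Y.card := by
    rw [hY', Finset.card_image_of_injOn]
    intro a ha b hb hab
    have h1 := hY (by exact_mod_cast ha)
    have h2 := hY (by exact_mod_cast hb)
    simp only [block, mem_filter, mem_univ, true_and] at h1 h2
    exact Prod.ext (h1.trans h2.symm) hab
  have hsub : (univ : Finset (Fin l × (ZMod p × ZMod p))).filter
      (fun y => Disjoint (lineSet l p y) Y) ⊆ (univ : Finset (Fin l)) ×ˢ
      ((univ : Finset (ZMod p × ZMod p)).filter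
        (fun ab => ∀ u : ZMod p, (u, ab.1 * u + ab.2) ∉ Y')) := by
    intro y hy
    rw [mem_filter] at hy
    rw [mem_product, mem_filter]
    refine ⟨mem_univ _, mem_univ _, ?_⟩
    intro u hu
    rw [hY', mem_image] at hu
    obtain ⟨z, hz, hzu⟩ := hu
    have hzb := hY hz
    simp only [block, mem_filter, mem_univ, true_and] at hzb
    have hz' : z = (i, (u, y.2.1 * u + y.2.2)) := Prod.ext hzb hzu
    have hmem : z ∈ lineSet l p y := by
      rw [hz']
      unfold lineSet
      rw [mem_image]
      exact ⟨(i, u), mem_univ _, rfl⟩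
    exact (Finset.disjoint_left.mp hy.2) hmem hz
  refine (Finset.card_le_card hsub).trans ?_
  rw [Finset.card_product, Finset.card_univ, Fintype.card_fin]
  apply Nat.mul_le_mul_left
  rw [Nat.le_div_iff_mul_le hs]
  have h1 := missing_lines p Y'
  rw [hcard] at h1
  calc _ ≤ _ * Y.card := Nat.mul_le_mul_left _ hc
    _ = _ := mul_comm _ _
    _ ≤ _ := h1

end Pool.Agent.H68.Cov
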