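import Mathlib

/-! The rank argument for the lower bound. -/

namespace Pool.Agent.H68.Cov

open Finset

/-- The inverse of the tensor power of `J - I`. -/
theorem kneser_inv {h q : ℕ} (hq : 2 ≤ q) :
    (Matrix.of (fun S T : Fin h → Fin q => ∏ g, (if S g = T g then (0 : ℚ) else 1))) *
    (Matrix.of (fun T U : Fin h → Fin q => ∏ g, ((1 : ℚ) / (q - 1) - if T g = U g then 1 else 0)))
      = 1 := by
  have hq1 : ((q : ℚ) - 1) ≠ 0 := by
    have : (2 : ℚ) ≤ q := by exact_mod_cast hq
    intro h0
    linarith
  have key : ∀ s u : Fin q, ∑ t : Fin q, (if s = t then (0 : ℚ) else 1) *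
      ((1 : ℚ) / (q - 1) - if t = u then 1 else 0) = if s = u then 1 else 0 := by
    intro s u
    have h1 : ∀ t : Fin q, (if s = t then (0 : ℚ) else 1) *
      ((1 : ℚ) / (q - 1) - if t = u then 1 else 0) =
      ((1 : ℚ) / (q - 1) - if t = u then 1 else 0) - (if s = t then
        ((1 : ℚ) / (q - 1) - if t = u then 1 else 0) else 0) := by
      intro t
      by_cases hst : s = t
      · simp [hst]
      · simp [hst]
    simp only [h1]
    rw [Finset.sum_sub_distrib, Finset.sum_sub_distrib, Finset.sum_ite_eq, Finset.sum_ite_eq']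
    simp only [Finset.sum_const, Finset.card_univ, Fintype.card_fin, mem_univ, if_true,
      nsmul_eq_mul]
    split_ifs with h2
    · field_simp; ring
    · field_simp; ring
  ext S U
  rw [Matrix.mul_apply, Matrix.one_apply]
  simp only [Matrix.of_apply]
  simp only [← Finset.prod_mul_distrib]
  have h2 := Finset.prod_univ_sum (fun _ : Fin h => (univ : Finset (Fin q)))
    (fun g t => (if S g = t then (0 : ℚ) else 1) * ((1 : ℚ) / (q - 1) - if t = U g then 1 else 0))
  rw [Fintype.piFinset_univ] at h2
  rw [← h2]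
  simp only [key]
  by_cases hSU : S = U
  · subst hSU; simp
  · rw [if_neg hSU]
    obtain ⟨g, hg⟩ := Function.ne_iff.mp hSU
    exact Finset.prod_eq_zero (mem_univ g) (by rw [if_neg hg])

/-- A matrix vanishing exactly on the intersecting pairs, with few values elsewhere, is not a sum
of few products. -/
theorem rank_bound {h q l : ℕ} (hq : 2 ≤ q) {I : Type*} [Fintype I]
    (a b : I → (Fin h → Fin q) → ℚ)
    (h0 : ∀ S T, (∃ g, S g = T g) → ∑ i, a i S * b i T = 0)
    (h1 : ∀ S T, (∀ g, S g ≠ T g) → ∃ j : Fin l, ∑ i, a i S * b i T = ((j : ℕ) : ℚ) + 1) :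
    q ^ h ≤ (Fintype.card I + 1) ^ l + 1 := by
  classical
  set mu : (Fin h → Fin q) → (Fin h → Fin q) → ℚ := fun S T => ∑ i, a i S * b i T with hmu
  -- the polynomial
  set c0 : ℚ := ∏ j : Fin l, (0 - (((j : ℕ) : ℚ) + 1)) with hc0
  have hc0ne : c0 ≠ 0 := by
    rw [hc0, Finset.prod_ne_zero_iff]
    intro j _
    have : (0 : ℚ) ≤ ((j : ℕ) : ℚ) := Nat.cast_nonneg _
    intro h2
    linarith
  have hF : ∀ S T, (∏ g, (if S g = T g then (0 : ℚ) else 1)) =
      1 - c0⁻¹ * ∏ j : Fin l, (mu S T - (((j : ℕ) : ℚ) + 1)) := by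
    intro S T
    by_cases hST : ∃ g, S g = T g
    · obtain ⟨g, hg⟩ := hST
      rw [Finset.prod_eq_zero (mem_univ g) (by rw [if_pos hg])]
      have : mu S T = 0 := h0 S T ⟨g, hg⟩
      rw [this, ← hc0, inv_mul_cancel₀ hc0ne]
      simp
    · push Not at hST
      obtain ⟨j, hj⟩ := h1 S T hST
      have h2 : ∏ j : Fin l, (mu S T - (((j : ℕ) : ℚ) + 1)) = 0 :=
        Finset.prod_eq_zero (mem_univ j) (by rw [hmu]; simp only; rw [hj]; ring)
      rw [h2]
      simp [hST]
  -- factor the matrix
  let J := Option (Fin l → Option I)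
  let A : Matrix (Fin h → Fin q) J ℚ := Matrix.of (fun S o => match o with
    | none => 1
    | some f => - c0⁻¹ * ∏ j : Fin l, (match f j with
      | none => - (((j : ℕ) : ℚ) + 1)
      | some i => a i S))
  let B : Matrix J (Fin h → Fin q) ℚ := Matrix.of (fun o T => match o with
    | none => 1
    | some f => ∏ j : Fin l, (match f j with
      | none => 1
      | some i => b i T))
  have hAB : A * B = Matrix.of (fun S T : Fin h → Fin q =>
      ∏ g, (if S g = T g then (0 : ℚ) else 1)) := by
    ext S T
    rw [Matrix.mul_apply]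
    simp only [Matrix.of_apply]
    rw [hF S T, Fintype.sum_option]
    have e1 : A S none * B none T = 1 := by simp [A, B]
    rw [e1, sub_eq_add_neg]
    congr 1
    have e2 : ∀ f : Fin l → Option I, A S (some f) * B (some f) T =
        - c0⁻¹ * ∏ j : Fin l, (match f j with
          | none => - (((j : ℕ) : ℚ) + 1)
          | some i => a i S * b i T) := by
      intro f
      simp only [A, B, Matrix.of_apply]
      rw [mul_assoc, ← Finset.prod_mul_distrib]
      congr 1
      apply Finset.prod_congr rfl
      intro j _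
      cases f j with
      | none => simp
      | some i => rfl
    simp only [e2]
    rw [← Finset.mul_sum, neg_mul]
    congr 1
    congr 1
    have h2 := Finset.prod_univ_sum (fun _ : Fin l => (univ : Finset (Option I)))
      (fun j o => (match o with
          | none => - (((j : ℕ) : ℚ) + 1)
          | some i => a i S * b i T : ℚ))
    rw [Fintype.piFinset_univ] at h2
    rw [← h2]
    apply Finset.prod_congr rfl
    intro j _
    rw [Fintype.sum_option]
    simp only [hmu]
    ring
  have hinv := kneser_inv (h := h) hq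
  rw [← hAB, Matrix.mul_assoc] at hinv
  have hr1 : (1 : Matrix (Fin h → Fin q) (Fin h → Fin q) ℚ).rank = q ^ h := by
    rw [Matrix.rank_one]
    simp
  rw [← hr1, ← hinv]
  refine (Matrix.rank_mul_le_left _ _).trans ?_
  refine (Matrix.rank_le_card_width _).trans ?_
  simp [J]

end Pool.Agent.H68.Cov
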