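import Pool.Agent.H68.Cov.Defs
import Pool.Agent.H68.Cov.Rank

/-! The lower bound. -/

namespace Pool.Agent.H68.Cov

open Finset

open scoped Classical in
/-- For pairwise disjoint parts, the number of ways to put the vertices `y` in distinct parts is
`1` if they form an edge and `0` otherwise. -/
theorem sum_equiv_eq {k n : ℕ} {J : Type*} [Fintype J] [DecidableEq J]
    (hJ : Fintype.card J = k) (X : Fin k → Finset (Fin n))
    (hX : ∀ r s, r ≠ s → Disjoint (X r) (X s)) (y : J → Fin n) (hy : Function.Injective y) :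
    ∑ σ : J ≃ Fin k, ∏ j, (if y j ∈ X (σ j) then (1 : ℚ) else 0) =
      if EdgeOf X (univ.image y) then 1 else 0 := by
  classical
  have hone : ∀ σ : J ≃ Fin k, ∏ j, (if y j ∈ X (σ j) then (1 : ℚ) else 0) =
      if ∀ j, y j ∈ X (σ j) then 1 else 0 := by
    intro σ
    by_cases h : ∀ j, y j ∈ X (σ j)
    · rw [if_pos h]
      exact Finset.prod_eq_one (fun j _ => if_pos (h j))
    · rw [if_neg h]
      push Not at h
      obtain ⟨j, hj⟩ := h
      exact Finset.prod_eq_zero (mem_univ j) (if_neg hj)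
  simp only [hone]
  by_cases hE : EdgeOf X (univ.image y)
  · rw [if_pos hE]
    obtain ⟨x, hx, himg⟩ := hE
    have h1 : ∀ j, ∃ r, x r = y j := by
      intro j
      have : y j ∈ univ.image x := by rw [← himg]; exact mem_image_of_mem _ (mem_univ _)
      rw [mem_image] at this
      obtain ⟨r, _, hr⟩ := this
      exact ⟨r, hr⟩
    choose σ hσ using h1
    have hinj : Function.Injective σ := by
      intro i j hij
      apply hy
      rw [← hσ i, ← hσ j, hij]
    have hbij : Function.Bijective σ := by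
      rw [Fintype.bijective_iff_injective_and_card]
      exact ⟨hinj, by simp [hJ]⟩
    let σ' : J ≃ Fin k := Equiv.ofBijective σ hbij
    rw [Finset.sum_eq_single σ']
    · rw [if_pos]
      intro j
      have : y j = x (σ j) := (hσ j).symm
      rw [this]
      exact hx _
    · intro τ _ hτ
      rw [if_neg]
      intro hall
      apply hτ
      ext j
      by_contra hne
      have hne' : τ j ≠ σ' j := fun h => hne (by rw [h])
      have h2 := hX _ _ hne'
      rw [Finset.disjoint_left] at h2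
      apply h2 (hall j)
      have : y j = x (σ j) := (hσ j).symm
      rw [this]
      exact hx _
    · intro h
      exact absurd (mem_univ _) h
  · rw [if_neg hE]
    apply Finset.sum_eq_zero
    intro σ _
    rw [if_neg]
    intro hall
    apply hE
    refine ⟨fun r => y (σ.symm r), fun r => by simpa using hall (σ.symm r), ?_⟩
    ext v
    simp only [mem_image, mem_univ, true_and]
    constructor
    · rintro ⟨j, rfl⟩
      exact ⟨σ j, by simp⟩
    · rintro ⟨r, rfl⟩
      exact ⟨_, rfl⟩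

/-- If two of the vertices coincide, there is no way. -/
theorem sum_equiv_eq_zero {k n : ℕ} {J : Type*} [Fintype J] [DecidableEq J]
    (X : Fin k → Finset (Fin n))
    (hX : ∀ r s, r ≠ s → Disjoint (X r) (X s)) (y : J → Fin n) {i j : J} (hij : i ≠ j)
    (hy : y i = y j) :
    ∑ σ : J ≃ Fin k, ∏ j, (if y j ∈ X (σ j) then (1 : ℚ) else 0) = 0 := by
  apply Finset.sum_eq_zero
  intro σ _
  by_cases h1 : y i ∈ X (σ i)
  · refine Finset.prod_eq_zero (mem_univ j) (if_neg ?_)
    rw [← hy]
    have h2 := hX _ _ (fun h => hij (σ.injective h))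
    rw [Finset.disjoint_left] at h2
    exact h2 h1
  · exact Finset.prod_eq_zero (mem_univ i) (if_neg h1)

theorem lower_core {k l n m h δ q : ℕ} (hk : k = 2 * h + δ) (hq : 2 ≤ q)
    (hn : h * q + δ ≤ n) (H : Fin m → Fin k → Finset (Fin n)) (hH : IsCovering k l n m H) :
    q ^ h ≤ (m * k.factorial + 1) ^ l + 1 := by
  classical
  obtain ⟨_, hdis, hcov⟩ := hH
  -- the vertices
  have hb1 : ∀ (g : Fin h) (x : Fin q), (g : ℕ) * q + x < n := by
    intro g x
    have h1 : (g : ℕ) + 1 ≤ h := g.2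
    have h2 : ((g : ℕ) + 1) * q ≤ h * q := Nat.mul_le_mul_right _ h1
    have h3 := x.2
    rw [Nat.add_mul, one_mul] at h2
    omega
  have hb2 : ∀ o : Fin δ, h * q + (o : ℕ) < n := by
    intro o
    have := o.2
    omega
  let J := Fin h ⊕ Fin h ⊕ Fin δ
  let y : (Fin h → Fin q) → (Fin h → Fin q) → J → Fin n := fun S T j => match j with
    | Sum.inl g => ⟨(g : ℕ) * q + (S g : ℕ), hb1 g (S g)⟩
    | Sum.inr (Sum.inl g) => ⟨(g : ℕ) * q + (T g : ℕ), hb1 g (T g)⟩
    | Sum.inr (Sum.inr o) => ⟨h * q + (o : ℕ), hb2 o⟩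
  have hJ : Fintype.card J = k := by
    simp [J, hk]; ring
  have hvtx : ∀ (g g' : ℕ) (x x' : Fin q), g * q + (x : ℕ) = g' * q + (x' : ℕ) → g = g' ∧ x = x' := by
    intro g g' x x' hxx
    have hq0 : 0 < q := by omega
    have h1 : g = g' := by
      have e1 : (g * q + (x : ℕ)) / q = g := by
        rw [mul_comm, Nat.mul_add_div hq0, Nat.div_eq_of_lt x.2, add_zero]
      have e2 : (g' * q + (x' : ℕ)) / q = g' := by
        rw [mul_comm, Nat.mul_add_div hq0, Nat.div_eq_of_lt x'.2, add_zero]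
      rw [← e1, ← e2, hxx]
    subst h1
    exact ⟨rfl, Fin.ext (by omega)⟩
  have hlt : ∀ (g : Fin h) (x : Fin q), (g : ℕ) * q + x < h * q := by
    intro g x
    have h1 : (g : ℕ) + 1 ≤ h := g.2
    have h2 : ((g : ℕ) + 1) * q ≤ h * q := Nat.mul_le_mul_right _ h1
    have h3 := x.2
    rw [Nat.add_mul, one_mul] at h2
    omega
  have hyinj : ∀ S T, (∀ g, S g ≠ T g) → Function.Injective (y S T) := by
    intro S T hST i j hij
    rcases i with g | g | o <;> rcases j with g' | g' | o' <;>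
      simp only [y, Fin.mk.injEq] at hij
    · obtain ⟨h1, _⟩ := hvtx _ _ _ _ hij
      have : g = g' := Fin.ext h1
      rw [this]
    · obtain ⟨h1, h2⟩ := hvtx _ _ _ _ hij
      have : g = g' := Fin.ext h1
      subst this
      exact absurd h2 (hST g)
    · have := hlt g (S g); omega
    · obtain ⟨h1, h2⟩ := hvtx _ _ _ _ hij
      have : g = g' := Fin.ext h1
      subst this
      exact absurd h2.symm (hST g)
    · obtain ⟨h1, _⟩ := hvtx _ _ _ _ hij
      have : g = g' := Fin.ext h1
      rw [this]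
    · have := hlt g (T g); omega
    · have := hlt g' (S g'); omega
    · have := hlt g' (T g'); omega
    · have : o = o' := Fin.ext (by omega)
      rw [this]
  -- the factors
  let I := Fin m × (J ≃ Fin k)
  let a : I → (Fin h → Fin q) → ℚ := fun i S => ∏ g : Fin h,
    (if (⟨(g : ℕ) * q + (S g : ℕ), hb1 g (S g)⟩ : Fin n) ∈ H i.1 (i.2 (Sum.inl g)) then 1 else 0)
  let b : I → (Fin h → Fin q) → ℚ := fun i T => (∏ g : Fin h,
    (if (⟨(g : ℕ) * q + (T g : ℕ), hb1 g (T g)⟩ : Fin n) ∈ H i.1 (i.2 (Sum.inr (Sum.inl g)))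
      then 1 else 0)) * ∏ o : Fin δ,
    (if (⟨h * q + (o : ℕ), hb2 o⟩ : Fin n) ∈ H i.1 (i.2 (Sum.inr (Sum.inr o))) then 1 else 0)
  have hab : ∀ S T, ∑ i, a i S * b i T =
      ∑ i : Fin m, ∑ σ : J ≃ Fin k, ∏ j, (if y S T j ∈ H i (σ j) then (1 : ℚ) else 0) := by
    intro S T
    rw [Fintype.sum_prod_type]
    apply Finset.sum_congr rfl
    intro i _
    apply Finset.sum_congr rfl
    intro σ _
    rw [Fintype.prod_sum_type, Fintype.prod_sum_type]
  have hcard : Fintype.card I = m * k.factorial := by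
    have h1 : Fintype.card (J ≃ Fin k) = k.factorial := by
      have e : J ≃ Fin k := Fintype.equivOfCardEq (by simp [hJ])
      rw [Fintype.card_equiv e, hJ]
    simp only [I, Fintype.card_prod, Fintype.card_fin, h1]
  have := rank_bound (l := l) hq a b ?_ ?_
  · rw [hcard] at this
    exact this
  · rintro S T ⟨g, hg⟩
    rw [hab]
    apply Finset.sum_eq_zero
    intro i _
    refine sum_equiv_eq_zero (H i) (hdis i) (y S T) (i := Sum.inl g) (j := Sum.inr (Sum.inl g))
      (by simp) ?_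
    simp only [y, hg]
  · intro S T hST
    rw [hab]
    have hinj := hyinj S T hST
    have h1 : ∀ i : Fin m, ∑ σ : J ≃ Fin k, ∏ j, (if y S T j ∈ H i (σ j) then (1 : ℚ) else 0) =
        if EdgeOf (H i) (univ.image (y S T)) then 1 else 0 :=
      fun i => sum_equiv_eq hJ (H i) (hdis i) (y S T) hinj
    simp only [h1]
    have hec : (univ.image (y S T)).card = k := by
      rw [Finset.card_image_of_injective _ hinj, Finset.card_univ, hJ]
    obtain ⟨hc1, hc2⟩ := hcov _ hec
    set c := {i : Fin m | EdgeOf (H i) (univ.image (y S T))}.ncard with hc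
    refine ⟨⟨c - 1, by omega⟩, ?_⟩
    rw [Finset.sum_boole]
    have h2 : ((univ.filter (fun i : Fin m => EdgeOf (H i) (univ.image (y S T)))).card) = c := by
      rw [hc, Set.ncard_eq_toFinset_card']
      congr 1
      ext i
      simp
    rw [h2]
    simp only
    have : c = (c - 1) + 1 := by omega
    conv_lhs => rw [this]
    push_cast
    ring

theorem lower (k l : ℕ) (hk : 2 ≤ k) (hl : 1 ≤ l) :
    ∃ c : ℝ, 0 < c ∧ ∀ n : ℕ, k ≤ n → ∀ (m : ℕ) (H : Fin m → Fin k → Finset (Fin n)),
      IsCovering k l n m H → c * (n : ℝ) ^ (((k / 2 : ℕ) : ℝ) / l) ≤ m := by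
  classical
  set h := k / 2 with hh
  set δ := k % 2 with hδ
  have hkk : k = 2 * h + δ := by omega
  have hh1 : 1 ≤ h := by omega
  have hδ1 : δ ≤ 1 := by omega
  have hl' : (0 : ℝ) < l := by exact_mod_cast hl
  -- the constant
  set K : ℝ := (3 * h : ℝ) ^ h * (2 * (2 * (k.factorial : ℝ)) ^ l) with hK
  have hK0 : 0 < K := by positivity
  refine ⟨(K ^ ((1 : ℝ) / l))⁻¹, by positivity, ?_⟩
  intro n hn m H hH
  -- at least one member
  have hm1 : 1 ≤ m := by
    obtain ⟨e, _, he⟩ := Finset.exists_subset_card_eq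
      (show k ≤ (univ : Finset (Fin n)).card by simpa using hn)
    have h1 := (hH.2.2 e he).1
    by_contra hm
    have hm0 : m = 0 := by omega
    subst hm0
    have : {i : Fin 0 | EdgeOf (H i) e} = ∅ := by
      ext i; exact i.elim0
    rw [this, Set.ncard_empty] at h1
    omega
  set q := (n - δ) / h with hq
  have hq2 : 2 ≤ q := by
    rw [hq, Nat.le_div_iff_mul_le (by omega)]
    omega
  have hqn : h * q + δ ≤ n := by
    have : h * q ≤ n - δ := Nat.mul_div_le _ _
    omega
  have hnq : n ≤ 3 * h * q := by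
    have h1 : n - δ < h * (q + 1) := by
      rw [hq]
      exact Nat.lt_mul_div_succ _ (by omega)
    have h2 : h * (q + 1) ≤ 2 * (h * q) := by
      have h3 : h ≤ h * q := Nat.le_mul_of_pos_right h (by omega)
      rw [Nat.mul_add, mul_one]
      omega
    have h4 : 1 ≤ h * q := Nat.mul_pos hh1 (by omega)
    have h5 : 3 * h * q = 3 * (h * q) := by ring
    omega
  have hcore := lower_core hkk hq2 hqn H hH
  -- real inequality
  have hr1 : (n : ℝ) ^ h ≤ K * (m : ℝ) ^ l := by
    have h1 : (n : ℝ) ≤ 3 * h * q := by exact_mod_cast hnq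
    have h2 : (n : ℝ) ^ h ≤ (3 * h * q : ℝ) ^ h := pow_le_pow_left₀ (Nat.cast_nonneg _) h1 _
    have h3 : ((q : ℝ)) ^ h ≤ 2 * (2 * (k.factorial : ℝ) * m) ^ l := by
      have h4 : ((q : ℝ)) ^ h ≤ ((m : ℝ) * k.factorial + 1) ^ l + 1 := by exact_mod_cast hcore
      have h5 : (1 : ℝ) ≤ (m : ℝ) * k.factorial := by
        have : 1 ≤ m * k.factorial := Nat.mul_pos hm1 (Nat.factorial_pos k)
        exact_mod_cast this
      have h6 : ((m : ℝ) * k.factorial + 1) ^ l ≤ (2 * (k.factorial : ℝ) * m) ^ l := by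
        apply pow_le_pow_left₀ (by positivity)
        linarith
      have h7 : (1 : ℝ) ≤ (2 * (k.factorial : ℝ) * m) ^ l := by
        apply one_le_pow₀
        linarith
      linarith
    calc (n : ℝ) ^ h ≤ (3 * h * q : ℝ) ^ h := h2
      _ = (3 * h : ℝ) ^ h * (q : ℝ) ^ h := mul_pow _ _ _
      _ ≤ (3 * h : ℝ) ^ h * (2 * (2 * (k.factorial : ℝ) * m) ^ l) :=
          mul_le_mul_of_nonneg_left h3 (by positivity)
      _ = _ := by rw [hK, mul_pow (2 * (k.factorial : ℝ))]; ring
  have hr2 : ((n : ℝ) ^ h) ^ ((1 : ℝ) / l) ≤ (K * (m : ℝ) ^ l) ^ ((1 : ℝ) / l) :=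
    Real.rpow_le_rpow (by positivity) hr1 (by positivity)
  have e1 : ((n : ℝ) ^ h) ^ ((1 : ℝ) / l) = (n : ℝ) ^ ((h : ℝ) / l) := by
    rw [← Real.rpow_natCast, ← Real.rpow_mul (Nat.cast_nonneg _)]
    congr 1
    ring
  have e2 : (K * (m : ℝ) ^ l) ^ ((1 : ℝ) / l) = K ^ ((1 : ℝ) / l) * m := by
    rw [Real.mul_rpow hK0.le (by positivity), ← Real.rpow_natCast (m : ℝ) l,
      ← Real.rpow_mul (Nat.cast_nonneg _)]
    have : (l : ℝ) * (1 / l) = 1 := by field_simp
    rw [this, Real.rpow_one]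
  rw [e1, e2] at hr2
  rw [inv_mul_le_iff₀ (by positivity)]
  exact hr2

end Pool.Agent.H68.Cov
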