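import Pool.Agent.H68.Cov.Defs
import Pool.Agent.H68.Cov.Code
import Pool.Agent.H68.Cov.Accept
import Pool.Agent.H68.Cov.Count

/-! The upper bound for fixed parameters. -/

namespace Pool.Agent.H68.Cov

open Finset

/-- An enumeration of the parts. -/
noncomputable def enum {n : ℕ} (k : ℕ) (P : Finset (Finset (Fin n))) : Fin k → Finset (Fin n) :=
  if h : P.card = k then fun r => ((P.equivFin.symm (Fin.cast h.symm r) : P) : Finset (Fin n))
  else fun _ => ∅

theorem enum_mem {n k : ℕ} {P : Finset (Finset (Fin n))} (h : P.card = k) (r : Fin k) :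
    enum k P r ∈ P := by
  unfold enum
  rw [dif_pos h]
  exact Subtype.property _

theorem enum_inj {n k : ℕ} {P : Finset (Finset (Fin n))} (h : P.card = k) :
    Function.Injective (enum k P) := by
  intro r s hrs
  unfold enum at hrs
  rw [dif_pos h] at hrs
  have h1 := P.equivFin.symm.injective (Subtype.ext hrs)
  simpa using h1

theorem enum_surj {n k : ℕ} {P : Finset (Finset (Fin n))} (h : P.card = k) {X : Finset (Fin n)}
    (hX : X ∈ P) : ∃ r, enum k P r = X := by
  unfold enum
  rw [dif_pos h]
  refine ⟨Fin.cast h (P.equivFin ⟨X, hX⟩), ?_⟩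
  simp

theorem edgeOf_enum {n k : ℕ} {P : Finset (Finset (Fin n))} (h : P.card = k)
    (hd : ∀ X ∈ P, ∀ Y ∈ P, X ≠ Y → Disjoint X Y) {e : Finset (Fin n)} (he : e.card = k) :
    EdgeOf (enum k P) e ↔ Hits P e := by
  constructor
  · rintro ⟨x, hx, rfl⟩ X hX
    obtain ⟨r, rfl⟩ := enum_surj h hX
    exact ⟨x r, mem_image_of_mem _ (mem_univ _), hx r⟩
  · intro hh
    have h1 : ∀ r : Fin k, ∃ v ∈ e, v ∈ enum k P r := fun r => hh _ (enum_mem h r)
    choose x hxe hx using h1
    refine ⟨x, hx, ?_⟩
    have hinj : Function.Injective x := by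
      intro r s hrs
      by_contra hne
      have h2 := hd _ (enum_mem h r) _ (enum_mem h s) (fun h3 => hne (enum_inj h h3))
      rw [Finset.disjoint_left] at h2
      exact h2 (hx r) (by rw [hrs]; exact hx s)
    symm
    apply Finset.eq_of_subset_of_card_le
    · intro v hv
      rw [mem_image] at hv
      obtain ⟨r, _, rfl⟩ := hv
      exact hxe r
    · rw [Finset.card_image_of_injective _ hinj, he]
      simp

theorem exists_covering_of_code {k l n p s P : ℕ} [Fact p.Prime] (hl : 1 ≤ l)
    (hs : 1 ≤ s) (c : Fin n → Fin l × (ZMod p × ZMod p) → ℕ) (hc : ∀ v j, c v j < P)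
    (hcode : ∀ v w, v ≠ w → l * (s - 1) < (diff c v w).card) :
    ∃ m : ℕ, m ≤ l * ((l * p ^ 2) ^ (p ^ 2 + (l * (k * k) + 2) * (k * k * (l * p + l * (p ^ 3 / s))))
        * (((P + 1) ^ (k / 2)) ^ (p ^ 2 + (l * (k * k) + 2) * (k * k * (l * p + l * (p ^ 3 / s)))))
        * (((2 * (k / 2) + 2) ^ (l * p ^ 2)) ^ k)) ∧
      ∃ H : Fin m → Fin k → Finset (Fin n), IsCovering k l n m H := by
  classical
  have hp0 : NeZero p := ⟨(Fact.out : p.Prime).ne_zero⟩
  have hpp : 0 < p := (Fact.out : p.Prime).pos
  set T := l * (k * k) + 2 with hT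
  set B := l * p + l * (p ^ 3 / s) with hB
  set D0 := p ^ 2 + T * (k * k * B) with hD0
  set st : Fin l → Finset (Fin l × (ZMod p × ZMod p)) → Finset (Fin l × (ZMod p × ZMod p)) :=
    fun i => strat (lineSet l p) (block l p i) s with hst
  set F : Fin l → Finset (Finset (Finset (Fin n))) :=
    fun i => family c (st i) (block l p i) T k with hF
  have hNcard : Fintype.card (Fin l × (ZMod p × ZMod p)) = l * p ^ 2 := by
    simp [ZMod.card, sq]
  have hFcard : ∀ i, (F i).card ≤ (l * p ^ 2) ^ D0 * (((P + 1) ^ (k / 2)) ^ D0)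
      * (((2 * (k / 2) + 2) ^ (l * p ^ 2)) ^ k) := by
    intro i
    have := card_family_le (h := k / 2) (k := k) (D0 := D0) (T := T) (step := st i)
      (S0 := block l p i) hc ?_ ?_ le_rfl
    · rw [hNcard] at this
      exact this
    · rw [← Finset.card_pos, card_block]
      positivity
    · intro e he
      have h1 := card_read_le c (st i) (block l p i) e (B := B) (fun Z => by
        refine card_strat_le (fun y => card_lineSet_le l p y) (fun Y hY hYs => ?_) Z
        exact card_disjoint_lineSet_le l p hs i Y hY hYs) T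
      rw [card_block, he] at h1
      rw [hD0, sq]
      exact h1
  -- the index type
  let I := (i : Fin l) × (F i : Set (Finset (Finset (Fin n))))
  let eqv : I ≃ Fin (Fintype.card I) := Fintype.equivFin I
  have hprop : ∀ i, ∀ Q ∈ F i, Q.card = k ∧ (∀ X ∈ Q, X.Nonempty) ∧
      (∀ X ∈ Q, ∀ Y ∈ Q, X ≠ Y → Disjoint X Y) := by
    intro i Q hQ
    rw [hF, mem_family] at hQ
    obtain ⟨e, he, hsep, rfl⟩ := hQ
    exact ⟨(card_parts hsep).trans he, parts_nonempty, parts_disjoint hsep⟩
  refine ⟨Fintype.card I, ?_, fun j => enum k ((eqv.symm j).2 : Finset (Finset (Fin n))), ?_, ?_, ?_⟩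
  · have : Fintype.card I = ∑ i : Fin l, (F i).card := by
      simp only [I, Fintype.card_sigma]
      apply Finset.sum_congr rfl
      intro i _
      simp
    rw [this]
    refine (Finset.sum_le_sum (fun i _ => hFcard i)).trans ?_
    simp
  · intro j r
    have h1 := hprop _ _ (eqv.symm j).2.2
    exact h1.2.1 _ (enum_mem h1.1 r)
  · intro j r s' hrs
    have h1 := hprop _ _ (eqv.symm j).2.2
    exact h1.2.2 _ (enum_mem h1.1 r) _ (enum_mem h1.1 s') (fun h => hrs (enum_inj h1.1 h))
  · intro e he
    have hiff : ∀ j, EdgeOf (enum k ((eqv.symm j).2 : Finset (Finset (Fin n)))) e ↔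
        Hits ((eqv.symm j).2 : Finset (Finset (Fin n))) e := by
      intro j
      have h1 := hprop _ _ (eqv.symm j).2.2
      exact edgeOf_enum h1.1 h1.2.2 he
    have hset : {j | EdgeOf (enum k ((eqv.symm j).2 : Finset (Finset (Fin n)))) e} =
        {j | Hits ((eqv.symm j).2 : Finset (Finset (Fin n))) e} := by
      ext j; exact hiff j
    rw [hset]
    constructor
    · rw [Nat.one_le_iff_ne_zero, ← Nat.pos_iff_ne_zero, Set.ncard_pos (Set.toFinite _)]
      -- some tree accepts
      have hne : Nonempty (Fin l) := ⟨⟨0, hl⟩⟩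
      obtain ⟨i, hi⟩ := exists_sep c (lineSet l p) (block l p) s T e hs
        (fun v _ w _ hvw => exists_block (hcode v w hvw)) (by simp [he, hT])
      have key : ∀ a : I, Hits (a.2 : Finset (Finset (Fin n))) e →
          {j | Hits ((eqv.symm j).2 : Finset (Finset (Fin n))) e}.Nonempty := by
        intro a ha
        refine ⟨eqv a, ?_⟩
        have h0 : eqv.symm (eqv a) = a := eqv.symm_apply_apply a
        have h1 : Hits ((eqv.symm (eqv a)).2 : Finset (Finset (Fin n))) e := by rw [h0]; exact ha
        exact h1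
      have hmem : parts c (read c (st i) (block l p i) e T) e ∈ F i := by
        rw [hF, mem_family]
        exact ⟨e, he, hi, rfl⟩
      exact key ⟨i, ⟨parts c (read c (st i) (block l p i) e T) e, by exact_mod_cast hmem⟩⟩
        hits_self
    · -- at most one for each tree
      have hinj0 : ∀ a b : I, Hits (a.2 : Finset (Finset (Fin n))) e →
          Hits (b.2 : Finset (Finset (Fin n))) e → a.1 = b.1 → a = b := by
        rintro ⟨i, Q, hQ⟩ ⟨i', Q', hQ'⟩ h1 h2 h3
        have h4 : i = i' := h3
        subst h4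
        have h5 : Q = parts c (read c (st i) (block l p i) e T) e :=
          family_unique (by exact_mod_cast hQ) he h1
        have h6 : Q' = parts c (read c (st i) (block l p i) e T) e :=
          family_unique (by exact_mod_cast hQ') he h2
        have h7 : Q = Q' := h5.trans h6.symm
        subst h7
        rfl
      have hinj : Set.InjOn (fun j => (eqv.symm j).1)
          {j | Hits ((eqv.symm j).2 : Finset (Finset (Fin n))) e} := by
        intro j hj j' hj' hjj
        exact eqv.symm.injective (hinj0 _ _ hj hj' hjj)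
      calc _ ≤ (Set.univ : Set (Fin l)).ncard :=
            Set.ncard_le_ncard_of_injOn _ (fun _ _ => Set.mem_univ _) hinj
        _ = l := by simp [Set.ncard_univ]

end Pool.Agent.H68.Cov
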